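import Pool.Agent.Lib.MP_0e6637_co.Final

set_option autoImplicit false

/-! Assembly of the counterexample: the norm and the final statement. -/

namespace Pool.Agent.Lib.MP_0e6637_co

/-- Index set of the family of functionals. -/
abbrev Idx : Type := {q : ℕ × ℕ × ℕ × ℕ // q.1 < q.2.1} × ZMod 5

/-- The functional with a given index, before rotation. -/
noncomputable def psiB (ν δ : ℕ → ℝ) (q : ℕ × ℕ × ℕ × ℕ) : V →ₗ[ℝ] ℝ :=
  psi (phi1 ν δ q.1 q.2.1 q.2.2.1 q.2.2.2) (phi2 ν q.1 q.2.1 q.2.2.1 q.2.2.2)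

/-- The vector with a given index, before rotation. -/
noncomputable def vB (ν δ : ℕ → ℝ) (q : ℕ × ℕ × ℕ × ℕ) : V :=
  (rho ν δ q.1 q.2.1)⁻¹ • (pt ν δ q.1 q.2.2.1 - pt ν δ q.2.1 q.2.2.2)

/-- The functional with a given index. -/
noncomputable def psiI (ν δ : ℕ → ℝ) (i : Idx) : V →ₗ[ℝ] ℝ := (psiB ν δ i.1.1).comp (Rot (-i.2))

/-- The vector with a given index. -/
noncomputable def vI (ν δ : ℕ → ℝ) (i : Idx) : V := Rot i.2 (vB ν δ i.1.1)

lemma qf_I (ν δ : ℕ → ℝ) (ε : ℝ) (i : Idx) (x : V) :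
    qf ε (psiI ν δ i) (vI ν δ i) x = qf ε (psiB ν δ i.1.1) (vB ν δ i.1.1) (Rot (-i.2) x) := by
  unfold qf psiI vI
  rw [LinearMap.comp_apply]
  congr 4
  rw [← norm_Rot (-i.2) (x - _), map_sub, map_smul, Rot_Rot, neg_add_cancel, Rot_zero]

namespace Rapid

variable {ν δ : ℕ → ℝ} (h : Rapid ν δ)
include h

lemma phi1_le {k l : ℕ} (hkl : k < l) (n m : ℕ) (j : Fin 7) : |phi1 ν δ k l n m j| ≤ 2 := by
  have h1 := h.alpha_bounds k l
  have h2 := h.νpos l
  have h3 := h.νle l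
  have h4 := h.νpos (min l m)
  have h5 := h.νle (min l m)
  have h6 := h.νpos (min k n)
  have h7 := h.νle (min k n)
  have h8 := h.AA_bounds (n := n) (m := m) hkl
  have h9 := h.νpos k
  have h10 := h.νle k
  have h11 : ν k ^ 2 ≤ 1 / 1000 := by nlinarith
  have h12 : 0 < ν k ^ 2 := by positivity
  have hA0 : 0 ≤ AA ν δ k l n m := by linarith [h8.1]
  have hA1 : AA ν δ k l n m ≤ 1 := by linarith [h8.2]
  have b1 : (ν (min l m)) ^ 2 ≤ 1 := by nlinarith
  have b2 : (ν (min k n)) ^ 2 ≤ 1 := by nlinarith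
  have b3 : 0 ≤ (ν (min l m)) ^ 2 := by positivity
  have b4 : 0 ≤ (ν (min k n)) ^ 2 := by positivity
  unfold phi1
  rw [abs_le]
  fin_cases j
  · show -2 ≤ alpha ν k l ∧ alpha ν k l ≤ 2
    constructor <;> linarith [h1.1, h1.2]
  · show -2 ≤ -(ν l * (1 - ν (min l m) ^ 2)) ∧ -(ν l * (1 - ν (min l m) ^ 2)) ≤ 2
    constructor <;> nlinarith
  · show -2 ≤ -(2 * ν l * ν (min l m)) ∧ -(2 * ν l * ν (min l m)) ≤ 2
    constructor <;> nlinarith
  · show -2 ≤ ν l ∧ ν l ≤ 2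
    constructor <;> linarith
  · show -2 ≤ AA ν δ k l n m * (1 - ν (min k n) ^ 2) ∧ AA ν δ k l n m * (1 - ν (min k n) ^ 2) ≤ 2
    constructor <;> nlinarith
  · show -2 ≤ 2 * AA ν δ k l n m * ν (min k n) ∧ 2 * AA ν δ k l n m * ν (min k n) ≤ 2
    constructor <;> nlinarith
  · show -2 ≤ -AA ν δ k l n m ∧ -AA ν δ k l n m ≤ 2
    constructor <;> linarith

lemma phi2_le (k l n m : ℕ) (j : Fin 7) : |phi2 ν k l n m j| ≤ 2 := by
  have h2 := h.νpos l
  have h3 := h.νle l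
  have h4 := h.νpos k
  have h5 := h.νle k
  have m1 := h.mmnonneg k n
  have m2 := h.mmle k n
  have m3 := h.mmnonneg l m
  have m4 := h.mmle l m
  unfold phi2
  rw [abs_le]
  fin_cases j
  · show -2 ≤ (0 : ℝ) ∧ (0 : ℝ) ≤ 2
    constructor <;> norm_num
  · show -2 ≤ -(2 * mm ν k n * ν l + 2 * mm ν l m * ν k) ∧
      -(2 * mm ν k n * ν l + 2 * mm ν l m * ν k) ≤ 2
    constructor <;> nlinarith
  · show -2 ≤ 2 * mm ν k n + 2 * mm ν l m ∧ 2 * mm ν k n + 2 * mm ν l m ≤ 2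
    constructor <;> linarith
  · show -2 ≤ (0 : ℝ) ∧ (0 : ℝ) ≤ 2
    constructor <;> norm_num
  · show -2 ≤ ν l + ν k ∧ ν l + ν k ≤ 2
    constructor <;> linarith
  · show -2 ≤ (-2 : ℝ) ∧ (-2 : ℝ) ≤ 2
    constructor <;> norm_num
  · show -2 ≤ (0 : ℝ) ∧ (0 : ℝ) ≤ 2
    constructor <;> norm_num

/-- The counterexample. -/
theorem exists_counterexample :
    ∃ (E : Type) (_ : NormedAddCommGroup E) (_ : NormedSpace ℝ E) (_ : FiniteDimensional ℝ E)
      (_ : StrictConvexSpace ℝ E) (M : Set E), Module.finrank ℝ E = 35 ∧ M.Infinite ∧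
      ∀ c : E → Fin 2, ∃ f : E → E,
        (∀ a ∈ M, ∀ b ∈ M, dist (f a) (f b) = dist a b) ∧
        ∀ a ∈ M, ∀ b ∈ M, c (f a) = c (f b) := by
  have : Nonempty Idx := ⟨⟨⟨(0, 1, 0, 0), by norm_num⟩, 0⟩⟩
  obtain ⟨E, i1, i2, i3, e, he⟩ := exists_norm V (psiI ν δ) (vI ν δ) (1 / 10000) 28
    (by norm_num) (by norm_num) (by norm_num)
    (by
      intro i x
      unfold psiI psiB
      rw [LinearMap.comp_apply]
      refine (abs_psi_le _ _ (h.phi1_le i.1.2 _ _) (h.phi2_le _ _ _ _) _).trans ?_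
      rw [norm_Rot])
    (by
      intro i
      unfold vI vB
      rw [norm_Rot, norm_smul, Real.norm_eq_abs, abs_of_pos (inv_pos.2 (h.rho_pos i.1.2))]
      have h1 := h.norm_c i.1.2 i.1.1.2.2.1 i.1.1.2.2.2
      have h2 := h.rho_pos i.1.2
      have h3 := inv_pos.2 h2
      calc (rho ν δ i.1.1.1 i.1.1.2.1)⁻¹ * ‖pt ν δ i.1.1.1 i.1.1.2.2.1 - pt ν δ i.1.1.2.1 i.1.1.2.2.2‖
          ≤ (rho ν δ i.1.1.1 i.1.1.2.1)⁻¹ * (3 * rho ν δ i.1.1.1 i.1.1.2.1) := by gcongr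
        _ = 3 := by field_simp
        _ ≤ 28 := by norm_num)
  -- values of the norm on the difference vectors
  have hval : ∀ k l, k < l → ∀ n m, ‖e (pt ν δ k n - pt ν δ l m)‖ = rho ν δ k l := by
    intro k l hkl n m
    rw [he]
    have hup : ∀ i : Idx, qf (1 / 10000) (psiI ν δ i) (vI ν δ i) (pt ν δ k n - pt ν δ l m) ≤
        rho ν δ k l := by
      intro i
      rw [qf_I]
      exact h.qf_rot i.1.2 hkl _ _ _ _ _
    apply le_antisymm
    · exact ciSup_le hup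
    · have hbdd : BddAbove (Set.range fun i : Idx =>
          qf (1 / 10000) (psiI ν δ i) (vI ν δ i) (pt ν δ k n - pt ν δ l m)) := by
        refine ⟨rho ν δ k l, ?_⟩
        rintro _ ⟨i, rfl⟩
        exact hup i
      refine le_ciSup_of_le hbdd (⟨⟨(k, l, n, m), hkl⟩, 0⟩ : Idx) ?_
      rw [qf_I]
      show rho ν δ k l ≤ qf (1 / 10000) (psiB ν δ (k, l, n, m)) (vB ν δ (k, l, n, m))
        (Rot (-0) (pt ν δ k n - pt ν δ l m))
      rw [neg_zero, Rot_zero]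
      unfold qf psiB vB
      have e1 : psi (phi1 ν δ k l n m) (phi2 ν k l n m) (pt ν δ k n - pt ν δ l m) = rho ν δ k l := by
        rw [map_sub, psi_pt, psi_pt, h.Psi_sub hkl]
      simp only
      rw [e1]
      apply Real.le_sqrt_of_sq_le
      have : 0 ≤ 1 / 10000 * ‖pt ν δ k n - pt ν δ l m -
          rho ν δ k l • (rho ν δ k l)⁻¹ • (pt ν δ k n - pt ν δ l m)‖ ^ 2 := by positivity
      linarith
  -- invariance under the rotation
  have hrot : ∀ x : V, ‖e (Rot 1 x)‖ = ‖e x‖ := by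
    intro x
    rw [he, he]
    refine Equiv.iSup_congr ((Equiv.refl _).prodCongr (Equiv.subRight (1 : ZMod 5))) ?_
    intro i
    rw [qf_I, qf_I, Rot_Rot]
    show qf (1 / 10000) (psiB ν δ i.1.1) (vB ν δ i.1.1) (Rot (-(i.2 - 1)) x) =
      qf (1 / 10000) (psiB ν δ i.1.1) (vB ν δ i.1.1) (Rot (-i.2 + 1) x)
    rw [neg_sub, sub_eq_neg_add]
  let R : E →ₗ[ℝ] E := (e.toLinearMap.comp (Rot 1)).comp e.symm.toLinearMap
  have hRe : ∀ x : V, R (e x) = e (Rot 1 x) := by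
    intro x
    show e (Rot 1 (e.symm (e x))) = e (Rot 1 x)
    rw [e.symm_apply_apply]
  have hRpow : ∀ (r : ℕ) (x : V), (R ^ r) (e x) = e (Rot (r : ZMod 5) x) := by
    intro r
    induction r with
    | zero => intro x; simp [Rot_zero]
    | succ r ih =>
      intro x
      rw [pow_succ, Module.End.mul_apply, hRe, ih, Rot_Rot, Nat.cast_succ]
  have hR : ∀ x, ‖R x‖ = ‖x‖ := by
    intro x
    obtain ⟨y, rfl⟩ := e.surjective x
    rw [hRe, hrot]
  have hR5 : ∀ x, (R ^ 5) x = x := by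
    intro x
    obtain ⟨y, rfl⟩ := e.surjective x
    rw [hRpow]
    have : ((5 : ℕ) : ZMod 5) = 0 := by decide
    rw [this, Rot_zero]
  have hkk : ∀ k, pt ν δ k k = uu 0 (ww ν δ k k) := by
    intro k
    unfold pt
    rw [min_self, if_neg (lt_irrefl k), map_zero, add_zero]
  have hfin : FiniteDimensional ℝ E := e.finiteDimensional
  have main := no_good_colouring R hR hR5 (fun k => {x | ∃ n, x = e (pt ν δ k n)})
    (fun k => e (pt ν δ k k)) (fun k l => rho ν δ k l) (fun k l hkl => h.rho_pos hkl)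
    (by
      rintro k l hkl p ⟨n, rfl⟩ q ⟨m, rfl⟩
      rw [← map_sub]
      exact hval k l hkl n m)
    (by
      intro k j hkj
      refine ⟨e (pt ν δ j k), ⟨k, rfl⟩, j, ?_⟩
      rw [hRe, ← map_add]
      congr 1
      rw [hkk]
      unfold pt
      rw [min_eq_right hkj.le, if_neg (not_lt.2 hkj.le), if_pos hkj, min_eq_left hkj.le, map_zero,
        add_zero, Rot_uu, zero_add])
    (by
      intro k
      show e (pt ν δ k k) + R (e (pt ν δ k k)) + (R ^ 2) (e (pt ν δ k k)) +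
        (R ^ 3) (e (pt ν δ k k)) + (R ^ 4) (e (pt ν δ k k)) = 0
      rw [hRe, hRpow, hRpow, hRpow, hkk, Rot_uu, Rot_uu, Rot_uu, Rot_uu, ← map_add, ← map_add,
        ← map_add, ← map_add]
      have c2 : (0 : ZMod 5) + ((2 : ℕ) : ZMod 5) = 2 := by decide
      have c3 : (0 : ZMod 5) + ((3 : ℕ) : ZMod 5) = 3 := by decide
      have c4 : (0 : ZMod 5) + ((4 : ℕ) : ZMod 5) = 4 := by decide
      rw [c2, c3, c4, zero_add, sum_uu, map_zero])
    (fun k => e (pt ν δ k k)) (fun k => ⟨k, rfl⟩)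
  refine ⟨E, i1, i2, hfin, i3, Set.range (fun k => e (pt ν δ k k)), ?_, main.1, main.2⟩
  rw [← e.finrank_eq, finrank_euclideanSpace, Fintype.card_prod, ZMod.card, Fintype.card_fin]

end Rapid

end Pool.Agent.Lib.MP_0e6637_co
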