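import Mathlib

set_option autoImplicit false

/-! The combinatorial core: a family of sets with a five-cycle structure forces a monochromatic
isometric copy of a sequence in every 2-colouring. -/

namespace Pool.Agent.Lib.MP_0e6637_co

variable {E : Type} [NormedAddCommGroup E] [NormedSpace ℝ E]

lemma fin_two_aux1 : ∀ κ u v : Fin 2, u ≠ κ → v ≠ κ → u = v := by decide
lemma fin_two_aux2 : ∀ κ : Fin 2, κ + 1 ≠ κ := by decide
lemma fin_two_aux3 : ∀ κ : Fin 2, κ ≠ κ + 1 + 1 + 1 + 1 + 1 := by decide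

/-- Iterates of a norm preserving linear map preserve the norm. -/
lemma norm_pow_apply (R : E →ₗ[ℝ] E) (hR : ∀ x, ‖R x‖ = ‖x‖) (r : ℕ) (x : E) :
    ‖(R ^ r) x‖ = ‖x‖ := by
  induction r with
  | zero => simp
  | succ r ih => rw [pow_succ', Module.End.mul_apply, hR, ih]

/-- Main combinatorial lemma. `S k` are nonempty sets such that any two points of `S k` and `S l`
with `k < l` are at distance `d k l`; `R` is a norm preserving linear map with `R ^ 5 = 1`; for
`k < j` some point `z k + R w` with `w ∈ S j` lies in `S k`; and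
`z k + R (z k) + ⋯ + R ^ 4 (z k) = 0`. Then every 2-colouring has a monochromatic sequence
`y` with `‖y k - y l‖ = d k l` for `k < l`. -/
theorem exists_mono (R : E →ₗ[ℝ] E) (hR : ∀ x, ‖R x‖ = ‖x‖) (hR5 : ∀ x, (R ^ 5) x = x)
    (S : ℕ → Set E) (hne : ∀ k, (S k).Nonempty) (z : ℕ → E) (d : ℕ → ℕ → ℝ)
    (h1 : ∀ k l, k < l → ∀ p ∈ S k, ∀ q ∈ S l, ‖p - q‖ = d k l)
    (h2 : ∀ k j, k < j → ∃ w ∈ S j, z k + R w ∈ S k)
    (h3 : ∀ k, z k + R (z k) + (R ^ 2) (z k) + (R ^ 3) (z k) + (R ^ 4) (z k) = 0)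
    (c : E → Fin 2) :
    ∃ y : ℕ → E, (∀ k l, k < l → ‖y k - y l‖ = d k l) ∧ ∀ k l, c (y k) = c (y l) := by
  by_contra hcon
  push Not at hcon
  -- every rotated translate has a monochromatic level of each colour
  have H : ∀ (y : E) (r : ℕ) (κ : Fin 2), ∃ k, ∀ p ∈ S k, c (y + (R ^ r) p) = κ := by
    intro y r κ
    by_contra hno
    push Not at hno
    choose p hp hpc using hno
    obtain ⟨k, l, hkl⟩ := hcon (fun k => y + (R ^ r) (p k)) (by
      intro k l hkl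
      have : y + (R ^ r) (p k) - (y + (R ^ r) (p l)) = (R ^ r) (p k - p l) := by
        rw [map_sub]; abel
      simp only [this]
      rw [norm_pow_apply R hR, h1 k l hkl _ (hp k) _ (hp l)])
    exact hkl (fin_two_aux1 κ _ _ (hpc k) (hpc l))
  classical
  have hex : ∃ k, ∃ (y : E) (r : ℕ) (κ : Fin 2), ∀ p ∈ S k, c (y + (R ^ r) p) = κ := by
    obtain ⟨k, hk⟩ := H 0 0 0
    exact ⟨k, 0, 0, 0, hk⟩
  set K := Nat.find hex with hK
  have hmin : ∀ k, k < K → ∀ (y : E) (r : ℕ) (κ : Fin 2), ¬ ∀ p ∈ S k, c (y + (R ^ r) p) = κ := by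
    intro k hk y r κ hmono
    exact Nat.find_min hex hk ⟨y, r, κ, hmono⟩
  -- one step along the cycle
  have step : ∀ (y : E) (r : ℕ) (κ : Fin 2), (∀ p ∈ S K, c (y + (R ^ r) p) = κ) →
      ∀ p ∈ S K, c ((y + (R ^ r) (z K)) + (R ^ (r + 1)) p) = κ + 1 := by
    intro y r κ hmono
    obtain ⟨k, hk⟩ := H (y + (R ^ r) (z K)) (r + 1) (κ + 1)
    have hkK : K ≤ k := by
      by_contra hlt
      exact hmin k (not_le.1 hlt) _ _ _ hk
    rcases hkK.lt_or_eq with hlt | heq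
    · exfalso
      obtain ⟨w, hw, hwz⟩ := h2 K k hlt
      have e1 := hmono _ hwz
      have e2 := hk w hw
      have e3 : y + (R ^ r) (z K + R w) = (y + (R ^ r) (z K)) + (R ^ (r + 1)) w := by
        rw [map_add, pow_succ, Module.End.mul_apply]; abel
      rw [e3, e2] at e1
      exact fin_two_aux2 κ e1
    · rw [← heq] at hk
      exact hk
  obtain ⟨y, r, κ, hmono⟩ := Nat.find_spec hex
  have s1 := step y r κ hmono
  have s2 := step _ _ _ s1
  have s3 := step _ _ _ s2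
  have s4 := step _ _ _ s3
  have s5 := step _ _ _ s4
  obtain ⟨p, hp⟩ := hne K
  have e1 := hmono p hp
  have e2 := s5 p hp
  have e3 : y + (R ^ r) (z K) + (R ^ (r + 1)) (z K) + (R ^ (r + 1 + 1)) (z K)
      + (R ^ (r + 1 + 1 + 1)) (z K) + (R ^ (r + 1 + 1 + 1 + 1)) (z K) = y := by
    have := congrArg (R ^ r) (h3 K)
    simp only [map_add, map_zero] at this
    have a1 : (R ^ r) (R (z K)) = (R ^ (r + 1)) (z K) := by
      rw [pow_succ, Module.End.mul_apply]
    have a2 : (R ^ r) ((R ^ 2) (z K)) = (R ^ (r + 1 + 1)) (z K) := by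
      rw [show r + 1 + 1 = r + 2 by ring, pow_add, Module.End.mul_apply]
    have a3 : (R ^ r) ((R ^ 3) (z K)) = (R ^ (r + 1 + 1 + 1)) (z K) := by
      rw [show r + 1 + 1 + 1 = r + 3 by ring, pow_add, Module.End.mul_apply]
    have a4 : (R ^ r) ((R ^ 4) (z K)) = (R ^ (r + 1 + 1 + 1 + 1)) (z K) := by
      rw [show r + 1 + 1 + 1 + 1 = r + 4 by ring, pow_add, Module.End.mul_apply]
    rw [a1, a2, a3, a4] at this
    calc _ = y + ((R ^ r) (z K) + (R ^ (r + 1)) (z K) + (R ^ (r + 1 + 1)) (z K)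
      + (R ^ (r + 1 + 1 + 1)) (z K) + (R ^ (r + 1 + 1 + 1 + 1)) (z K)) := by abel
      _ = y := by rw [this, add_zero]
  rw [e3] at e2
  have e4 : (R ^ (r + 1 + 1 + 1 + 1 + 1)) p = (R ^ r) p := by
    rw [show r + 1 + 1 + 1 + 1 + 1 = r + 5 by ring, pow_add, Module.End.mul_apply, hR5]
  rw [e4, e1] at e2
  exact fin_two_aux3 κ e2

/-- The same conclusion in the form used by the frozen statement. -/
theorem no_good_colouring (R : E →ₗ[ℝ] E) (hR : ∀ x, ‖R x‖ = ‖x‖) (hR5 : ∀ x, (R ^ 5) x = x)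
    (S : ℕ → Set E) (z : ℕ → E) (d : ℕ → ℕ → ℝ) (hd : ∀ k l, k < l → 0 < d k l)
    (h1 : ∀ k l, k < l → ∀ p ∈ S k, ∀ q ∈ S l, ‖p - q‖ = d k l)
    (h2 : ∀ k j, k < j → ∃ w ∈ S j, z k + R w ∈ S k)
    (h3 : ∀ k, z k + R (z k) + (R ^ 2) (z k) + (R ^ 3) (z k) + (R ^ 4) (z k) = 0)
    (x : ℕ → E) (hx : ∀ k, x k ∈ S k) :
    (Set.range x).Infinite ∧
    ∀ c : E → Fin 2, ∃ f : E → E,
      (∀ a ∈ Set.range x, ∀ b ∈ Set.range x, dist (f a) (f b) = dist a b) ∧
      ∀ a ∈ Set.range x, ∀ b ∈ Set.range x, c (f a) = c (f b) := by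
  have hinj : Function.Injective x := by
    intro k l hkl
    rcases lt_trichotomy k l with h | h | h
    · exfalso
      have := h1 k l h _ (hx k) _ (hx l)
      rw [hkl, sub_self, norm_zero] at this
      exact absurd this (ne_of_lt (hd k l h))
    · exact h
    · exfalso
      have := h1 l k h _ (hx l) _ (hx k)
      rw [hkl, sub_self, norm_zero] at this
      exact absurd this (ne_of_lt (hd l k h))
  refine ⟨Set.infinite_range_of_injective hinj, ?_⟩
  intro c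
  obtain ⟨y, hy, hyc⟩ := exists_mono R hR hR5 S (fun k => ⟨x k, hx k⟩) z d h1 h2 h3 c
  refine ⟨Function.extend x y id, ?_, ?_⟩
  · rintro _ ⟨k, rfl⟩ _ ⟨l, rfl⟩
    rw [hinj.extend_apply, hinj.extend_apply, dist_eq_norm, dist_eq_norm]
    rcases lt_trichotomy k l with h | h | h
    · rw [hy k l h, h1 k l h _ (hx k) _ (hx l)]
    · subst h; simp
    · rw [norm_sub_rev (y k), norm_sub_rev (x k), hy l k h, h1 l k h _ (hx l) _ (hx k)]
  · rintro _ ⟨k, rfl⟩ _ ⟨l, rfl⟩
    rw [hinj.extend_apply, hinj.extend_apply]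
    exact hyc k l

end Pool.Agent.Lib.MP_0e6637_co
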