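import Pool.Agent.Lib.MP_0e6637_co.Ineq
import Pool.Agent.Lib.MP_0e6637_co.Ramsey

set_option autoImplicit false

/-! Assembly of the counterexample. -/

namespace Pool.Agent.Lib.MP_0e6637_co

namespace Rapid

variable {ν δ : ℕ → ℝ} (h : Rapid ν δ)
include h

lemma F1_abs {k l : ℕ} (hkl : k < l) (n m : ℕ) {y x : ℕ} (hxy : x ≤ y) :
    |F1 ν δ k l n m y x| ≤ (101 / 100) * δ y := by
  have h1 := h.Psi_err' hkl n m y x
  have e : Psi ν δ k l n m y x = F1 ν δ k l n m y x := by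
    unfold Psi
    rw [if_neg (not_lt.2 hxy), add_zero, min_eq_right hxy]
  rw [e] at h1
  have h2 := h.alpha_bounds k l
  have h3 := h.aale y
  have h4 := h.δpos y
  have h5 := abs_le.1 h1
  have h6 : alpha ν k l * δ y ≤ 1 * δ y := by gcongr; exact h2.2
  have h7 : 0 ≤ alpha ν k l * δ y := mul_nonneg (by linarith) h4.le
  rw [abs_le]
  constructor <;> linarith

/-- Case `s = 0`. -/
lemma qf_zero {k l k' l' : ℕ} (hkl : k < l) (hkl' : k' < l') (n m n' m' : ℕ) :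
    qf (1 / 10000) (psi (phi1 ν δ k l n m) (phi2 ν k l n m))
      ((rho ν δ k l)⁻¹ • (pt ν δ k n - pt ν δ l m)) (pt ν δ k' n' - pt ν δ l' m')
      ≤ rho ν δ k' l' := by
  have hρ := h.rho_pos hkl
  have hρ' := h.rho_pos hkl'
  have hmain := h.main_ineq hkl hkl' n m n' m'
  have hpos := h.Psi_diff_bounds hkl n m hkl' n' m'
  unfold qf
  apply Real.sqrt_le_iff.2
  refine ⟨hρ'.le, ?_⟩
  rw [map_sub, psi_pt, psi_pt]
  set t := Psi ν δ k l n m k' n' - Psi ν δ k l n m l' m' with ht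
  set c := pt ν δ k n - pt ν δ l m with hc
  set c' := pt ν δ k' n' - pt ν δ l' m' with hc'
  set ρ := rho ν δ k l with hρd
  set ρ' := rho ν δ k' l' with hρd'
  have hv : ‖ρ⁻¹ • c‖ ≤ 3 := by
    rw [norm_smul, Real.norm_eq_abs, abs_of_pos (inv_pos.2 hρ)]
    have := h.norm_c hkl n m
    calc ρ⁻¹ * ‖c‖ ≤ ρ⁻¹ * (3 * ρ) := by
          have := inv_pos.2 hρ
          gcongr
      _ = 3 := by field_simp
  have htle : t ≤ ρ' := by
    have : 0 ≤ ρ' * (ρ' - t) := le_trans (by positivity) hmain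
    by_contra hcon
    push Not at hcon
    nlinarith
  clear_value t
  have e : c' - t • ρ⁻¹ • c = (c' - (ρ' * ρ⁻¹) • c) + (ρ' - t) • (ρ⁻¹ • c) := by
    module
  have hn : ‖c' - t • ρ⁻¹ • c‖ ≤ ‖c' - (ρ' * ρ⁻¹) • c‖ + (ρ' - t) * 3 := by
    rw [e]
    refine (norm_add_le _ _).trans ?_
    rw [norm_smul (ρ' - t), Real.norm_eq_abs, abs_of_nonneg (by linarith : 0 ≤ ρ' - t)]
    have : 0 ≤ ρ' - t := by linarith
    gcongr
  have hn2 := pow_le_pow_left₀ (norm_nonneg _) hn 2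
  set Z := ‖c' - (ρ' * ρ⁻¹) • c‖ with hZ
  have h2 : (Z + (ρ' - t) * 3) ^ 2 ≤ 2 * Z ^ 2 + 18 * (ρ' - t) ^ 2 := by
    nlinarith [sq_nonneg (Z - (ρ' - t) * 3)]
  have h3 : (ρ' - t) ^ 2 ≤ ρ' * (ρ' - t) := by nlinarith
  nlinarith

/-- Bounds for the functional on rotated vectors. -/
lemma psi_rot {k l k' l' : ℕ} (hkl : k < l) (hkl' : k' < l') (n m n' m' : ℕ) (r : ZMod 5)
    (hr : r ≠ 0) :
    |psi (phi1 ν δ k l n m) (phi2 ν k l n m) (Rot r (pt ν δ k' n' - pt ν δ l' m'))|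
      ≤ (6 / 10) * rho ν δ k' l' := by
  have hb := (h.rho_bounds hkl').1
  have hd := h.δpos k'
  have hd' := h.δpos l'
  have hdd := h.δlt1 hkl'
  -- bounds of dot products
  have f1 := abs_le.1 (h.F1_abs hkl n m (min_le_left k' n'))
  have f1' := abs_le.1 (h.F1_abs hkl n m (min_le_left l' m'))
  have f2 := abs_le.1 (h.F2_abs k l n m k' (min k' n'))
  have f2' := abs_le.1 (h.F2_abs k l n m l' (min l' m'))
  have a1 := h.aale k'
  have a2 := h.aale l'
  have tail1 : ∀ y x : ℕ, |if x < y then F1 ν δ k l n m y x else 0| ≤ δ x / 1000 := by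
    intro y x
    split_ifs with hxy
    · have g1 := h.F1_abs hkl n m hxy.le
      have g2 := h.δlt1 hxy
      have g3 := h.δpos x
      linarith
    · rw [abs_zero]
      have g3 := h.δpos x
      positivity
  have tail2 : ∀ y x : ℕ, |if x < y then F2 ν δ k l n m y x else 0| ≤ δ x / 1000 := by
    intro y x
    split_ifs with hxy
    · have g1 := h.F2_abs k l n m y x
      have g2 := h.δlt1 hxy
      have g3 := h.δpos x
      have g4 := h.aale y
      have g5 := h.δpos y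
      linarith
    · rw [abs_zero]
      have g3 := h.δpos x
      positivity
  have t1 := abs_le.1 (tail1 n' k')
  have t1' := abs_le.1 (tail1 m' l')
  have t2 := abs_le.1 (tail2 n' k')
  have t2' := abs_le.1 (tail2 m' l')
  have e : Rot r (pt ν δ k' n' - pt ν δ l' m') =
      uu r (ww ν δ k' (min k' n')) - uu r (ww ν δ l' (min l' m')) +
      (uu (r + 1) (if k' < n' then ww ν δ n' k' else 0) -
        uu (r + 1) (if l' < m' then ww ν δ m' l' else 0)) := by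
    unfold pt
    rw [map_sub, map_add, map_add, Rot_uu, Rot_uu, Rot_uu, Rot_uu, zero_add, add_comm 1 r]
    abel
  rw [e]
  have key : ∀ r : ZMod 5, r ≠ 0 → r = 1 ∨ r = 2 ∨ r = 3 ∨ r = 4 := by decide
  have r2 : (1 : ZMod 5) + 1 = 2 := by decide
  have r3 : (2 : ZMod 5) + 1 = 3 := by decide
  have r4 : (3 : ZMod 5) + 1 = 4 := by decide
  have r0 : (4 : ZMod 5) + 1 = 0 := by decide
  rcases key r hr with rfl | rfl | rfl | rfl
  · rw [r2, map_add, map_sub, map_sub, psi_uu1, psi_uu1, psi_uu2, psi_uu2, dot_phi2_ww,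
      dot_phi2_ww, dot_phi1_ite, dot_phi1_ite, abs_le]
    constructor <;> linarith
  · rw [r3, map_add, map_sub, map_sub, psi_uu2, psi_uu2, psi_uu3, psi_uu3, dot_phi1_ww,
      dot_phi1_ww, dot_phi1_ite, dot_phi1_ite, dot_phi2_ite, dot_phi2_ite, abs_le]
    constructor <;> linarith
  · rw [r4, map_add, map_sub, map_sub, psi_uu3, psi_uu3, psi_uu4, psi_uu4, dot_phi1_ww,
      dot_phi1_ww, dot_phi2_ww, dot_phi2_ww, dot_phi2_ite, dot_phi2_ite, abs_le]
    constructor <;> linarith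
  · rw [r0, map_add, map_sub, map_sub, psi_uu4, psi_uu4, psi_uu0, psi_uu0, dot_phi2_ww,
      dot_phi2_ww, dot_phi1_ite, dot_phi1_ite, abs_le]
    constructor <;> linarith

/-- All cases. -/
lemma qf_rot {k l k' l' : ℕ} (hkl : k < l) (hkl' : k' < l') (n m n' m' : ℕ) (r : ZMod 5) :
    qf (1 / 10000) (psi (phi1 ν δ k l n m) (phi2 ν k l n m))
      ((rho ν δ k l)⁻¹ • (pt ν δ k n - pt ν δ l m)) (Rot r (pt ν δ k' n' - pt ν δ l' m'))
      ≤ rho ν δ k' l' := by
  by_cases hr : r = 0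
  · subst hr
    rw [Rot_zero]
    exact h.qf_zero hkl hkl' n m n' m'
  have hρ := h.rho_pos hkl
  have hρ' := h.rho_pos hkl'
  have hψ := h.psi_rot hkl hkl' n m n' m' r hr
  unfold qf
  apply Real.sqrt_le_iff.2
  refine ⟨hρ'.le, ?_⟩
  set t := psi (phi1 ν δ k l n m) (phi2 ν k l n m) (Rot r (pt ν δ k' n' - pt ν δ l' m')) with ht
  set c := pt ν δ k n - pt ν δ l m with hc
  set c' := pt ν δ k' n' - pt ν δ l' m' with hc'
  set ρ := rho ν δ k l with hρd
  set ρ' := rho ν δ k' l' with hρd'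
  have hv : ‖ρ⁻¹ • c‖ ≤ 3 := by
    rw [norm_smul, Real.norm_eq_abs, abs_of_pos (inv_pos.2 hρ)]
    have := h.norm_c hkl n m
    calc ρ⁻¹ * ‖c‖ ≤ ρ⁻¹ * (3 * ρ) := by
          have := inv_pos.2 hρ
          gcongr
      _ = 3 := by field_simp
  have hc3 : ‖Rot r c'‖ ≤ 3 * ρ' := by
    rw [norm_Rot]
    exact h.norm_c hkl' n' m'
  have hn : ‖Rot r c' - t • ρ⁻¹ • c‖ ≤ 3 * ρ' + (6 / 10) * ρ' * 3 := by
    refine (norm_sub_le _ _).trans ?_
    rw [norm_smul t, Real.norm_eq_abs]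
    gcongr
  have hn2 := pow_le_pow_left₀ (norm_nonneg _) hn 2
  have ht2 : t ^ 2 ≤ ((6 / 10) * ρ') ^ 2 := by
    rw [← sq_abs]
    exact pow_le_pow_left₀ (abs_nonneg _) hψ 2
  have : 0 ≤ ρ' ^ 2 := sq_nonneg _
  linarith

end Rapid

end Pool.Agent.Lib.MP_0e6637_co
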