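import Mathlib

set_option autoImplicit false

/-! Strictly convex norms as suprema of uniformly comparable Hilbertian norms. -/

namespace Pool.Agent.Lib.MP_0e6637_co

/-- A copy of a vector space carrying no norm. -/
def Syn (V : Type) : Type := V

instance (V : Type) [h : AddCommGroup V] : AddCommGroup (Syn V) := h
instance (V : Type) [AddCommGroup V] [h : Module ℝ V] : Module ℝ (Syn V) := h

/-- The identity as a linear equivalence. -/
def toSyn (V : Type) [AddCommGroup V] [Module ℝ V] : V ≃ₗ[ℝ] Syn V := LinearEquiv.refl ℝ V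

theorem exists_norm_of_family (V : Type) [AddCommGroup V] [Module ℝ V] {I : Type}
    [Nonempty I] (q : I → V → ℝ) (b : V → ℝ) (hb : ∀ x, 0 ≤ b x) (hb0 : ∀ x, b x ≤ 0 → x = 0)
    (C c : ℝ) (hc : 0 < c)
    (hnn : ∀ i x, 0 ≤ q i x) (hadd : ∀ i x y, q i (x + y) ≤ q i x + q i y)
    (hsmul : ∀ i (a : ℝ) x, q i (a • x) = |a| * q i x)
    (hup : ∀ i x, q i x ≤ C * b x) (hlow : ∀ i x, c * b x ≤ q i x)
    (hpar : ∀ i x y, q i (x + y) ^ 2 + q i (x - y) ^ 2 = 2 * q i x ^ 2 + 2 * q i y ^ 2) :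
    ∃ (E : Type) (_ : NormedAddCommGroup E) (_ : NormedSpace ℝ E) (_ : StrictConvexSpace ℝ E)
      (e : V ≃ₗ[ℝ] E), ∀ x, ‖e x‖ = ⨆ i, q i x := by
  have hbdd : ∀ x, BddAbove (Set.range fun i => q i x) := by
    intro x
    refine ⟨C * b x, ?_⟩
    rintro _ ⟨i, rfl⟩
    exact hup i x
  have hle : ∀ i x, q i x ≤ ⨆ i, q i x := fun i x => le_ciSup (hbdd x) i
  have key : ∀ x y : V, (⨆ i, q i x) = 1 → (⨆ i, q i y) = 1 → x ≠ y →
      (⨆ i, q i (x + y)) ≠ 2 := by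
    intro x y hx' hy' hxy h2'
    have hd : 0 < b (x - y) := by
      by_contra hcon
      push Not at hcon
      exact hxy (sub_eq_zero.1 (hb0 (x - y) hcon))
    have hbound : ∀ i, q i (x + y) ≤ √(4 - (c * b (x - y)) ^ 2) := by
      intro i
      apply Real.le_sqrt_of_sq_le
      have e1 := hpar i x y
      have e2 : q i x ≤ 1 := hx' ▸ hle i x
      have e3 : q i y ≤ 1 := hy' ▸ hle i y
      have e4 := hlow i (x - y)
      have e5 : q i x ^ 2 ≤ 1 := by nlinarith [hnn i x]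
      have e6 : q i y ^ 2 ≤ 1 := by nlinarith [hnn i y]
      have e7 : (c * b (x - y)) ^ 2 ≤ q i (x - y) ^ 2 :=
        pow_le_pow_left₀ (by positivity) e4 2
      linarith
    have h3 : (2 : ℝ) ≤ √(4 - (c * b (x - y)) ^ 2) := by
      rw [← h2']
      exact ciSup_le hbound
    have h4 : √(4 - (c * b (x - y)) ^ 2) < 2 := by
      rw [Real.sqrt_lt' (by norm_num)]
      have : 0 < (c * b (x - y)) ^ 2 := by positivity
      linarith
    linarith
  let instN : Norm (Syn V) := ⟨fun x => ⨆ i, q i x⟩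
  have hN : ∀ x : V, ‖toSyn V x‖ = ⨆ i, q i x := fun x => rfl
  obtain ⟨i₀⟩ := (inferInstance : Nonempty I)
  have hz : ∀ i, q i 0 = 0 := by
    intro i
    have := hsmul i 0 0
    simpa using this
  have core : NormedSpace.Core ℝ (Syn V) := by
    refine ⟨⟨?_, ?_, ?_⟩, ?_⟩
    · intro x
      exact (hnn i₀ x).trans (hle i₀ x)
    · intro a x
      show (⨆ i, q i (a • (x : V))) = |a| * ⨆ i, q i x
      rw [Real.mul_iSup_of_nonneg (abs_nonneg a)]
      congr 1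
      ext i
      exact hsmul i a x
    · intro x y
      show (⨆ i, q i ((x : V) + y)) ≤ (⨆ i, q i x) + ⨆ i, q i y
      refine ciSup_le fun i => ?_
      exact (hadd i x y).trans (add_le_add (hle i x) (hle i y))
    · intro x
      constructor
      · intro h
        have h1 : c * b (x : V) ≤ 0 := by
          refine (hlow i₀ x).trans ((hle i₀ x).trans ?_)
          exact le_of_eq h
        have h2 : b (x : V) ≤ 0 := by
          by_contra hcon
          push Not at hcon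
          nlinarith
        exact hb0 _ h2
      · intro h
        subst h
        show (⨆ i, q i 0) = 0
        simp [hz]
  let inst1 : NormedAddCommGroup (Syn V) := NormedAddCommGroup.ofCore core
  let inst2 : NormedSpace ℝ (Syn V) := NormedSpace.ofCore core
  have inst3 : StrictConvexSpace ℝ (Syn V) := by
    apply StrictConvexSpace.of_norm_add_ne_two
    intro x y hx hy hxy h2
    exact key x y hx hy hxy h2
  exact ⟨Syn V, inst1, inst2, inst3, toSyn V, hN⟩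

/-- Hilbertian norms attached to a functional `ψ` and a vector `v`:
`q x = √(ψ x ^ 2 + ε ‖x - ψ x • v‖ ^ 2)`. -/
noncomputable def qf {V : Type} [NormedAddCommGroup V] [InnerProductSpace ℝ V]
    (ε : ℝ) (ψ : V →ₗ[ℝ] ℝ) (v x : V) : ℝ :=
  √(ψ x ^ 2 + ε * ‖x - ψ x • v‖ ^ 2)

section qf

variable {V : Type} [NormedAddCommGroup V] [InnerProductSpace ℝ V]
  (ε : ℝ) (ψ : V →ₗ[ℝ] ℝ) (v : V)

/-- The map into `ℝ × V` whose Euclidean norm is `qf`. -/
noncomputable def Tmap (x : V) : WithLp 2 (ℝ × V) :=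
  WithLp.toLp 2 (ψ x, √ε • (x - ψ x • v))

lemma Tmap_add (x y : V) : Tmap ε ψ v (x + y) = Tmap ε ψ v x + Tmap ε ψ v y := by
  unfold Tmap
  rw [← WithLp.toLp_add]
  congr 1
  ext
  · simp
  · simp only [map_add, Prod.snd_add]
    rw [← smul_add]
    congr 1
    rw [add_smul]
    abel

lemma Tmap_smul (a : ℝ) (x : V) : Tmap ε ψ v (a • x) = a • Tmap ε ψ v x := by
  unfold Tmap
  rw [← WithLp.toLp_smul]
  congr 1
  ext
  · simp
  · simp only [map_smul, Prod.smul_snd, smul_eq_mul]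
    rw [smul_comm a, smul_sub a, mul_smul]

lemma Tmap_sub (x y : V) : Tmap ε ψ v (x - y) = Tmap ε ψ v x - Tmap ε ψ v y := by
  have : x - y = x + (-1 : ℝ) • y := by simp [sub_eq_add_neg]
  rw [this, Tmap_add, Tmap_smul]
  simp [sub_eq_add_neg]

lemma norm_Tmap (hε : 0 ≤ ε) (x : V) : ‖Tmap ε ψ v x‖ = qf ε ψ v x := by
  rw [WithLp.prod_norm_eq_of_L2]
  unfold Tmap qf
  congr 1
  simp only [WithLp.toLp_fst, WithLp.toLp_snd]
  rw [norm_smul, mul_pow, Real.norm_eq_abs, sq_abs, Real.norm_eq_abs, sq_abs, Real.sq_sqrt hε]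

end qf

/-- The strictly convex norm attached to a bounded family of pairs `(ψ i, v i)`. -/
theorem exists_norm (V : Type) [NormedAddCommGroup V] [InnerProductSpace ℝ V] {I : Type}
    [Nonempty I] (ψ : I → V →ₗ[ℝ] ℝ) (v : I → V) (ε C : ℝ) (hε : 0 < ε) (hε1 : ε ≤ 1) (hC : 0 < C)
    (hψ : ∀ i x, |ψ i x| ≤ C * ‖x‖) (hv : ∀ i, ‖v i‖ ≤ C) :
    ∃ (E : Type) (_ : NormedAddCommGroup E) (_ : NormedSpace ℝ E) (_ : StrictConvexSpace ℝ E)
      (e : V ≃ₗ[ℝ] E), ∀ x, ‖e x‖ = ⨆ i, qf ε (ψ i) (v i) x := by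
  have hε0 : 0 ≤ ε := hε.le
  refine exists_norm_of_family V (fun i => qf ε (ψ i) (v i)) (fun x => ‖x‖)
    (fun x => norm_nonneg x) (fun x hx => norm_le_zero_iff.1 hx) (1 + 2 * C + C ^ 2)
    (√ε / (1 + C)) (by positivity) ?_ ?_ ?_ ?_ ?_ ?_
  · intro i x
    exact Real.sqrt_nonneg _
  · intro i x y
    rw [← norm_Tmap ε (ψ i) (v i) hε0, ← norm_Tmap ε (ψ i) (v i) hε0,
      ← norm_Tmap ε (ψ i) (v i) hε0, Tmap_add]
    exact norm_add_le _ _
  · intro i a x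
    rw [← norm_Tmap ε (ψ i) (v i) hε0, ← norm_Tmap ε (ψ i) (v i) hε0, Tmap_smul, norm_smul,
      Real.norm_eq_abs]
  · intro i x
    unfold qf
    apply Real.sqrt_le_iff.2
    have hx := norm_nonneg x
    refine ⟨by positivity, ?_⟩
    have h1 := hψ i x
    have h2 : ‖x - ψ i x • v i‖ ≤ (1 + C * C) * ‖x‖ := by
      calc ‖x - ψ i x • v i‖ ≤ ‖x‖ + ‖ψ i x • v i‖ := norm_sub_le _ _
        _ = ‖x‖ + |ψ i x| * ‖v i‖ := by rw [norm_smul, Real.norm_eq_abs]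
        _ ≤ ‖x‖ + (C * ‖x‖) * C := by gcongr; exact hv i
        _ = (1 + C * C) * ‖x‖ := by ring
    have h3 : ψ i x ^ 2 ≤ (C * ‖x‖) ^ 2 := by
      rw [← sq_abs]
      exact pow_le_pow_left₀ (abs_nonneg _) h1 2
    have h4 : ‖x - ψ i x • v i‖ ^ 2 ≤ ((1 + C * C) * ‖x‖) ^ 2 :=
      pow_le_pow_left₀ (norm_nonneg _) h2 2
    have h5 : ε * ‖x - ψ i x • v i‖ ^ 2 ≤ 1 * ((1 + C * C) * ‖x‖) ^ 2 := by
      gcongr
    have h6 : (C * ‖x‖) ^ 2 + 1 * ((1 + C * C) * ‖x‖) ^ 2 ≤ ((1 + 2 * C + C ^ 2) * ‖x‖) ^ 2 := by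
      have : 0 ≤ ‖x‖ ^ 2 := by positivity
      have hCC : C ^ 2 + (1 + C * C) ^ 2 ≤ (1 + 2 * C + C ^ 2) ^ 2 := by nlinarith [pow_pos hC 3]
      calc (C * ‖x‖) ^ 2 + 1 * ((1 + C * C) * ‖x‖) ^ 2
          = (C ^ 2 + (1 + C * C) ^ 2) * ‖x‖ ^ 2 := by ring
        _ ≤ (1 + 2 * C + C ^ 2) ^ 2 * ‖x‖ ^ 2 := by gcongr
        _ = _ := by ring
    linarith
  · intro i x
    unfold qf
    apply Real.le_sqrt_of_sq_le
    have hx := norm_nonneg x
    have h1 : ‖x‖ ≤ ‖x - ψ i x • v i‖ + |ψ i x| * C := by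
      calc ‖x‖ = ‖(x - ψ i x • v i) + ψ i x • v i‖ := by simp
        _ ≤ ‖x - ψ i x • v i‖ + ‖ψ i x • v i‖ := norm_add_le _ _
        _ = ‖x - ψ i x • v i‖ + |ψ i x| * ‖v i‖ := by rw [norm_smul, Real.norm_eq_abs]
        _ ≤ ‖x - ψ i x • v i‖ + |ψ i x| * C := by gcongr; exact hv i
    set a := ‖x - ψ i x • v i‖ with ha
    have ha0 : 0 ≤ a := norm_nonneg _
    have hb : ψ i x ^ 2 = |ψ i x| ^ 2 := (sq_abs _).symm
    rw [hb]
    set b := |ψ i x| with hbdef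
    have hb0 : 0 ≤ b := abs_nonneg _
    have h2 : (√ε / (1 + C) * ‖x‖) ^ 2 = ε * ‖x‖ ^ 2 / (1 + C) ^ 2 := by
      rw [mul_pow, div_pow, Real.sq_sqrt hε0]; ring
    rw [h2, div_le_iff₀ (by positivity)]
    have h3 : ‖x‖ ^ 2 ≤ (a + b * C) ^ 2 := pow_le_pow_left₀ hx h1 2
    have h4 : (a + b * C) ^ 2 ≤ (a ^ 2 + b ^ 2) * (1 + C) ^ 2 := by
      have : 0 ≤ (a * C - b) ^ 2 := sq_nonneg _
      have h5 : 0 ≤ (a ^ 2 + b ^ 2) * C := by positivity
      nlinarith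
    calc ε * ‖x‖ ^ 2 ≤ ε * ((a ^ 2 + b ^ 2) * (1 + C) ^ 2) := by
          gcongr; exact h3.trans h4
      _ = (ε * b ^ 2 + ε * a ^ 2) * (1 + C) ^ 2 := by ring
      _ ≤ (b ^ 2 + ε * a ^ 2) * (1 + C) ^ 2 := by
          gcongr
          nlinarith [sq_nonneg b]
  · intro i x y
    rw [← norm_Tmap ε (ψ i) (v i) hε0, ← norm_Tmap ε (ψ i) (v i) hε0,
      ← norm_Tmap ε (ψ i) (v i) hε0, ← norm_Tmap ε (ψ i) (v i) hε0, Tmap_add, Tmap_sub,
      parallelogram_law_with_norm ℝ]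
    ring

end Pool.Agent.Lib.MP_0e6637_co
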