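import Pool.Agent.Lib.MP_0e6637_co.Vec
import Pool.Agent.Lib.MP_0e6637_co.Norm

set_option autoImplicit false

/-! The main inequality. -/

namespace Pool.Agent.Lib.MP_0e6637_co

namespace Rapid

variable {ν δ : ℕ → ℝ} (h : Rapid ν δ)
include h

/-- Upper bound for the difference of two distances with the same first level. -/
lemma rho_sub {k l l' : ℕ} :
    |rho ν δ k l - rho ν δ k l'| ≤ δ l + δ l' := by
  have e : rho ν δ k l - rho ν δ k l' = δ l' * (1 - ν k ^ 8 - 2 * ν l' ^ 4)
      - δ l * (1 - ν k ^ 8 - 2 * ν l ^ 4) := by unfold rho; ring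
  have b : ∀ j, 0 ≤ 1 - ν k ^ 8 - 2 * ν j ^ 4 ∧ 1 - ν k ^ 8 - 2 * ν j ^ 4 ≤ 1 := by
    intro j
    have e1 : ν k ^ 8 ≤ (1 / 1000) ^ 8 := pow_le_pow_left₀ (h.νpos k).le (h.νle k) 8
    have e2 : ν j ^ 4 ≤ (1 / 1000) ^ 4 := pow_le_pow_left₀ (h.νpos j).le (h.νle j) 4
    have e3 : 0 < ν k ^ 8 := pow_pos (h.νpos k) 8
    have e4 : 0 < ν j ^ 4 := pow_pos (h.νpos j) 4
    norm_num at e1 e2
    constructor <;> linarith
  have c1 := h.δpos l
  have c2 := h.δpos l'
  have d1 : δ l' * (1 - ν k ^ 8 - 2 * ν l' ^ 4) ≤ δ l' * 1 := by gcongr; exact (b l').2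
  have d2 : δ l * (1 - ν k ^ 8 - 2 * ν l ^ 4) ≤ δ l * 1 := by gcongr; exact (b l).2
  have d3 : 0 ≤ δ l' * (1 - ν k ^ 8 - 2 * ν l' ^ 4) := mul_nonneg c2.le (b l').1
  have d4 : 0 ≤ δ l * (1 - ν k ^ 8 - 2 * ν l ^ 4) := mul_nonneg c1.le (b l).1
  rw [e, abs_le]
  constructor <;> linarith

/-- Main inequality. -/
theorem main_ineq {k l k' l' : ℕ} (hkl : k < l) (hkl' : k' < l') (n m n' m' : ℕ) :
    ‖(pt ν δ k' n' - pt ν δ l' m') - (rho ν δ k' l' * (rho ν δ k l)⁻¹) •
        (pt ν δ k n - pt ν δ l m)‖ ^ 2 / 2500 ≤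
      rho ν δ k' l' * (rho ν δ k' l' - (Psi ν δ k l n m k' n' - Psi ν δ k l n m l' m')) := by
  have hρ := h.rho_pos hkl
  have hρ' := h.rho_pos hkl'
  have hb := h.rho_bounds hkl
  have hb' := h.rho_bounds hkl'
  by_cases hk : k' = k
  · subst hk
    have hpp := h.p_part hkl n m n' ‖pt ν δ k' n - pt ν δ k' n'‖ (norm_nonneg _)
      (h.norm_pt_sub k' n n')
    by_cases hl : l' = l
    · -- case 1
      subst hl
      have hqq := h.q_part hkl n m m' ‖pt ν δ l' m - pt ν δ l' m'‖ (norm_nonneg _)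
        (h.norm_pt_sub l' m m')
      have hsub := h.Psi_sub (n := n) (m := m) hkl
      rw [mul_inv_cancel₀ hρ.ne', one_smul]
      set X := ‖pt ν δ k' n - pt ν δ k' n'‖ with hX
      set Y := ‖pt ν δ l' m - pt ν δ l' m'‖ with hY
      have hX0 : 0 ≤ X := norm_nonneg _
      have hY0 : 0 ≤ Y := norm_nonneg _
      have e : pt ν δ k' n' - pt ν δ l' m' - (pt ν δ k' n - pt ν δ l' m) =
          (pt ν δ l' m - pt ν δ l' m') - (pt ν δ k' n - pt ν δ k' n') := by abel
      have hn : ‖pt ν δ k' n' - pt ν δ l' m' - (pt ν δ k' n - pt ν δ l' m)‖ ≤ X + Y := by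
        rw [e]
        refine (norm_sub_le _ _).trans ?_
        linarith
      have hn2 : ‖pt ν δ k' n' - pt ν δ l' m' - (pt ν δ k' n - pt ν δ l' m)‖ ^ 2 ≤ (X + Y) ^ 2 :=
        pow_le_pow_left₀ (norm_nonneg _) hn 2
      have hxy : (X + Y) ^ 2 ≤ 2 * (X ^ 2 + Y ^ 2) := by nlinarith [sq_nonneg (X - Y)]
      set T := rho ν δ k' l' - (Psi ν δ k' l' n m k' n' - Psi ν δ k' l' n m l' m') with hT
      have hTe : (X ^ 2 + Y ^ 2) / 200 ≤ δ k' * T := by
        have : δ k' * T = δ k' * (Psi ν δ k' l' n m k' n - Psi ν δ k' l' n m k' n') +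
          δ k' * (Psi ν δ k' l' n m l' m' - Psi ν δ k' l' n m l' m) := by
          rw [hT, ← hsub]; ring
        linarith
      have hd := h.δpos k'
      have hT0 : 0 ≤ T := by
        by_contra hcon
        push Not at hcon
        have : δ k' * T < 0 := mul_neg_of_pos_of_neg hd hcon
        nlinarith [sq_nonneg X, sq_nonneg Y]
      have : (99 / 100) * (δ k' * T) ≤ rho ν δ k' l' * T := by
        have := mul_le_mul_of_nonneg_right hb'.1 hT0
        linarith
      have hs := sq_nonneg X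
      have hs' := sq_nonneg Y
      linarith
    · -- case 2
      have hc2 := h.case_two hkl hkl' (fun e => hl e.symm) n m n' m'
      set X := ‖pt ν δ k' n - pt ν δ k' n'‖ with hX
      have hX0 : 0 ≤ X := norm_nonneg _
      set T := rho ν δ k' l' - (Psi ν δ k' l n m k' n' - Psi ν δ k' l n m l' m') with hT
      set j := min l l' with hj
      have hkj : k' < j := lt_min hkl hkl'
      have hd := h.δpos k'
      have hdj := h.δpos j
      have hl1 : δ l + δ l' ≤ (101 / 100) * δ j := by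
        rcases lt_or_gt_of_ne hl with hlt | hlt
        · rw [hj, min_eq_right hlt.le]
          have := h.δlt1 hlt
          have := h.δpos l'
          linarith
        · rw [hj, min_eq_left hlt.le]
          have := h.δlt1 hlt
          have := h.δpos l
          linarith
      have e : pt ν δ k' n' - pt ν δ l' m' - (rho ν δ k' l' * (rho ν δ k' l)⁻¹) •
          (pt ν δ k' n - pt ν δ l m) =
          (pt ν δ l m - pt ν δ l' m') - (pt ν δ k' n - pt ν δ k' n')
          + ((rho ν δ k' l - rho ν δ k' l') * (rho ν δ k' l)⁻¹) •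
            (pt ν δ k' n - pt ν δ l m) := by
        rw [sub_mul, mul_inv_cancel₀ hρ.ne', sub_smul, one_smul]
        abel
      have hn : ‖pt ν δ k' n' - pt ν δ l' m' - (rho ν δ k' l' * (rho ν δ k' l)⁻¹) •
          (pt ν δ k' n - pt ν δ l m)‖ ≤ X + 7 * δ j := by
        rw [e]
        refine (norm_add_le _ _).trans ?_
        have e1 := norm_sub_le (pt ν δ l m - pt ν δ l' m') (pt ν δ k' n - pt ν δ k' n')
        have e2 := norm_sub_le (pt ν δ l m) (pt ν δ l' m')
        have e3 := h.norm_pt l m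
        have e4 := h.norm_pt l' m'
        have e5 : ‖((rho ν δ k' l - rho ν δ k' l') * (rho ν δ k' l)⁻¹) •
            (pt ν δ k' n - pt ν δ l m)‖ ≤ 3 * (δ l + δ l') := by
          rw [norm_smul, Real.norm_eq_abs, abs_mul, abs_of_pos (inv_pos.2 hρ)]
          have f1 := h.norm_c hkl n m
          have f2 := h.rho_sub (k := k') (l := l) (l' := l')
          have f3 := inv_pos.2 hρ
          have g1 := h.δpos l
          have g2 := h.δpos l'
          calc |rho ν δ k' l - rho ν δ k' l'| * (rho ν δ k' l)⁻¹ * ‖pt ν δ k' n - pt ν δ l m‖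
              ≤ (δ l + δ l') * (rho ν δ k' l)⁻¹ * (3 * rho ν δ k' l) := by gcongr
            _ = 3 * (δ l + δ l') := by
              field_simp
        linarith
      have hn2 := pow_le_pow_left₀ (norm_nonneg _) hn 2
      have hxy : (X + 7 * δ j) ^ 2 ≤ 2 * (X ^ 2 + 49 * δ j ^ 2) := by
        nlinarith [sq_nonneg (X - 7 * δ j)]
      have hbig : 100 * δ j ^ 2 ≤ δ k' * aa ν δ j := by
        have g1 := h.δlt_self hkj
        have g2 := h.νpos j
        have g3 : ν j ^ 8 ≤ ν j ^ 4 := h.pow_mono j (by norm_num)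
        have g4 : δ j ≤ (1 / 1000000) * ν j ^ 4 * δ k' := by
          calc δ j ≤ (1 / 1000000) * ν j ^ 8 * δ k' := g1
            _ ≤ _ := by gcongr
        calc 100 * δ j ^ 2 = 100 * δ j * δ j := by ring
          _ ≤ 100 * ((1 / 1000000) * ν j ^ 4 * δ k') * δ j := by gcongr
          _ ≤ δ k' * aa ν δ j := by
            unfold aa
            have : 0 < δ k' * (δ j * ν j ^ 4) := by positivity
            linarith
      have hTe : X ^ 2 / 200 + 50 * δ j ^ 2 ≤ δ k' * T := by
        have := mul_le_mul_of_nonneg_left hc2 hd.le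
        rw [mul_add] at this
        linarith
      have hT0 : 0 ≤ T := by
        by_contra hcon
        push Not at hcon
        have : δ k' * T < 0 := mul_neg_of_pos_of_neg hd hcon
        nlinarith [sq_nonneg X, sq_nonneg (δ j)]
      have : (99 / 100) * (δ k' * T) ≤ rho ν δ k' l' * T := by
        have := mul_le_mul_of_nonneg_right hb'.1 hT0
        linarith
      have hs := sq_nonneg X
      have hs' := sq_nonneg (δ j)
      linarith
  · -- case 3
    have hc3 := h.case_three hkl hkl' hk n m n' m'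
    set T := rho ν δ k' l' - (Psi ν δ k l n m k' n' - Psi ν δ k l n m l' m') with hT
    have e : pt ν δ k' n' - pt ν δ l' m' - (rho ν δ k' l' * (rho ν δ k l)⁻¹) •
        (pt ν δ k n - pt ν δ l m) =
        (pt ν δ k' n' - pt ν δ l' m' - rho ν δ k' l' • uu 0 e0)
        - (rho ν δ k' l' * (rho ν δ k l)⁻¹) •
          (pt ν δ k n - pt ν δ l m - rho ν δ k l • uu 0 e0) := by
      rw [smul_sub (_ * _) (pt ν δ k n - pt ν δ l m), smul_smul, mul_assoc,
        inv_mul_cancel₀ hρ.ne', mul_one]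
      abel
    have hdk := h.δpos k
    have hdk' := h.δpos k'
    have hnk := h.νpos k
    have hnk' := h.νpos k'
    have hn : ‖pt ν δ k' n' - pt ν δ l' m' - (rho ν δ k' l' * (rho ν δ k l)⁻¹) •
        (pt ν δ k n - pt ν δ l m)‖ ≤ 4 * (δ k' * (ν k' ^ 4 + ν k ^ 4)) := by
      rw [e]
      refine (norm_sub_le _ _).trans ?_
      have f1 := h.norm_c_e0 hkl' n' m'
      have f2 := h.norm_c_e0 hkl n m
      have f3 := inv_pos.2 hρ
      have f4 : ‖(rho ν δ k' l' * (rho ν δ k l)⁻¹) •
          (pt ν δ k n - pt ν δ l m - rho ν δ k l • uu 0 e0)‖ ≤ 4 * (δ k' * ν k ^ 4) := by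
        rw [norm_smul, Real.norm_eq_abs, abs_of_pos (by positivity)]
        have g1 : (rho ν δ k l)⁻¹ ≤ ((99 / 100) * δ k)⁻¹ := by
          gcongr
          exact hb.1
        calc rho ν δ k' l' * (rho ν δ k l)⁻¹ * ‖pt ν δ k n - pt ν δ l m - rho ν δ k l • uu 0 e0‖
            ≤ ((101 / 100) * δ k') * ((99 / 100) * δ k)⁻¹ * (3 * aa ν δ k) := by
              have := hb'.2
              gcongr
          _ = ((101 / 100) * (100 / 99) * 3) * (δ k' * ν k ^ 4) := by
              unfold aa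
              field_simp
          _ ≤ _ := by
            have : 0 < δ k' * ν k ^ 4 := by positivity
            nlinarith
      have f5 : 3 * aa ν δ k' = 3 * (δ k' * ν k' ^ 4) := rfl
      have : 0 < δ k' * ν k' ^ 4 := by positivity
      linarith
    have hn2 := pow_le_pow_left₀ (norm_nonneg _) hn 2
    have hxy : (4 * (δ k' * (ν k' ^ 4 + ν k ^ 4))) ^ 2 ≤
        32 * (δ k' * (δ k' * ν k' ^ 8 + δ k' * ν k ^ 8)) := by
      have : 0 ≤ δ k' ^ 2 * (ν k' ^ 4 - ν k ^ 4) ^ 2 := by positivity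
      linarith
    have hTe : δ k' * (δ k' * ν k' ^ 8 + δ k' * ν k ^ 8) / 2 ≤ δ k' * T := by
      have := mul_le_mul_of_nonneg_left hc3 hdk'.le
      linarith
    have hpos : 0 < δ k' * ν k' ^ 8 + δ k' * ν k ^ 8 := by positivity
    have hT0 : 0 ≤ T := by linarith
    have : (99 / 100) * (δ k' * T) ≤ rho ν δ k' l' * T := by
      have := mul_le_mul_of_nonneg_right hb'.1 hT0
      linarith
    have hpos2 : 0 < δ k' * (δ k' * ν k' ^ 8 + δ k' * ν k ^ 8) := by positivity
    linarith

end Rapid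

end Pool.Agent.Lib.MP_0e6637_co
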