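import Pool.Agent.Lib.MP_0e6637_co.Seq

set_option autoImplicit false

/-! Scalar quantities of the construction and the first estimates. -/

namespace Pool.Agent.Lib.MP_0e6637_co

section defs

variable (ν δ : ℕ → ℝ)

/-- `a_k = δ_k ν_k^4`. -/
def aa (k : ℕ) : ℝ := δ k * ν k ^ 4
/-- `b_k = δ_k ν_k^6`. -/
def bb (k : ℕ) : ℝ := δ k * ν k ^ 6
/-- `P_i(x) = 1 - (ν_i - ν_x)^2`. -/
def PP (i x : ℕ) : ℝ := 1 - (ν i - ν x) ^ 2
/-- The tail parameter. -/
noncomputable def mm (k n : ℕ) : ℝ := if k < n then ν n ^ 2 else 0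
/-- The distances. -/
def rho (k l : ℕ) : ℝ := δ k * (1 + ν k ^ 8) - δ l * (1 - ν k ^ 8 - 2 * ν l ^ 4)
/-- Height coefficient. -/
def alpha (k l : ℕ) : ℝ := 1 - ν k ^ 8 - 3 * ν l ^ 4
/-- Denominator of the amplitude. -/
noncomputable def Den (k l n m : ℕ) : ℝ := bb ν δ k - bb ν δ l * PP ν (min k n) (min l m)
/-- Numerator of the amplitude. -/
noncomputable def Num (k l n m : ℕ) : ℝ :=
  δ k * (2 * ν k ^ 8 + 3 * ν l ^ 4) - δ l * ν l ^ 4
    + ν l * (aa ν δ k * PP ν (min l m) (min k n) - aa ν δ l)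
    - (if k < n then bb ν δ n * (ν k - ν l) else 0)
    - (if l < m then bb ν δ m * (ν k - ν l) else 0)
/-- The amplitude. -/
noncomputable def AA (k l n m : ℕ) : ℝ := Num ν δ k l n m / Den ν δ k l n m
/-- Values of the functional on the main vectors. -/
noncomputable def F1 (k l n m y x : ℕ) : ℝ :=
  alpha ν k l * δ y - ν l * (aa ν δ y * PP ν (min l m) x)
    + AA ν δ k l n m * (bb ν δ y * PP ν (min k n) x)
/-- Values of the functional on the tail vectors. -/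
noncomputable def F2 (k l n m y x : ℕ) : ℝ :=
  aa ν δ y * (2 * mm ν k n * (ν x - ν l) - 2 * mm ν l m * (ν k - ν x))
    + bb ν δ y * ((ν k - ν x) - (ν x - ν l))
/-- Values of the functional on the points `p(k', n')`. -/
noncomputable def Psi (k l n m k' n' : ℕ) : ℝ :=
  F1 ν δ k l n m k' (min k' n') + if k' < n' then F2 ν δ k l n m n' k' else 0

end defs

namespace Rapid

variable {ν δ : ℕ → ℝ} (h : Rapid ν δ)
include h

lemma aapos (k : ℕ) : 0 < aa ν δ k := mul_pos (h.δpos k) (pow_pos (h.νpos k) 4)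
lemma bbpos (k : ℕ) : 0 < bb ν δ k := mul_pos (h.δpos k) (pow_pos (h.νpos k) 6)

lemma aale (k : ℕ) : aa ν δ k ≤ δ k / 1000000 := by
  unfold aa
  have h1 := h.δpos k
  have h2 : ν k ^ 4 ≤ (1 / 1000) ^ 4 := pow_le_pow_left₀ (h.νpos k).le (h.νle k) 4
  have h3 : δ k * ν k ^ 4 ≤ δ k * (1 / 1000) ^ 4 := by gcongr
  refine h3.trans ?_
  norm_num
  linarith

lemma bble (k : ℕ) : bb ν δ k ≤ aa ν δ k / 1000000 := by
  have h1 := h.aapos k
  have h2 : ν k ^ 2 ≤ (1 / 1000) ^ 2 := pow_le_pow_left₀ (h.νpos k).le (h.νle k) 2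
  have h3 : bb ν δ k = aa ν δ k * ν k ^ 2 := by unfold aa bb; ring
  rw [h3]
  calc aa ν δ k * ν k ^ 2 ≤ aa ν δ k * (1 / 1000) ^ 2 := by gcongr
    _ = aa ν δ k / 1000000 := by ring

lemma PPle (i x : ℕ) : PP ν i x ≤ 1 := by
  unfold PP
  have := sq_nonneg (ν i - ν x)
  linarith

lemma lePP (i x : ℕ) : 1 - 1 / 1000000 ≤ PP ν i x := by
  unfold PP
  have h1 := h.abs_sub_le i x
  have h2 : (ν i - ν x) ^ 2 ≤ (1 / 1000) ^ 2 := by
    rw [← sq_abs]
    exact pow_le_pow_left₀ (abs_nonneg _) h1 2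
  norm_num at h2 ⊢
  linarith

lemma PPself (i : ℕ) : PP ν i i = 1 := by
  unfold PP; ring

lemma PPcomm (i x : ℕ) : PP ν i x = PP ν x i := by
  unfold PP; ring

lemma mmnonneg (k n : ℕ) : 0 ≤ mm ν k n := by
  unfold mm
  split_ifs
  · exact pow_nonneg (h.νpos n).le 2
  · exact le_rfl

lemma mmle (k n : ℕ) : mm ν k n ≤ 1 / 1000000 := by
  unfold mm
  split_ifs
  · calc ν n ^ 2 ≤ (1 / 1000) ^ 2 := pow_le_pow_left₀ (h.νpos n).le (h.νle n) 2
      _ = _ := by norm_num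
  · norm_num

/-- Bounds for the tail term of `Num`. -/
lemma tailterm (k l s n : ℕ) (hkl : k < l) (hs : k ≤ s) :
    0 ≤ (if s < n then bb ν δ n * (ν k - ν l) else 0) ∧
    (if s < n then bb ν δ n * (ν k - ν l) else 0) ≤ δ k * ν k ^ 8 / 100 := by
  have h1 := h.half hkl
  have h2 := h.νpos l
  have h2' := h.νpos k
  have h3 := h.νle k
  have h4 : 0 < δ k * ν k ^ 8 := mul_pos (h.δpos k) (pow_pos (h.νpos k) 8)
  split_ifs with hn
  · have h5 := h.bbpos n
    have h6 := h.bble n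
    have h7 := h.aale n
    have h8 := h.δlt' (lt_of_le_of_lt hs hn) (show 8 ≤ 10 by norm_num)
    refine ⟨mul_nonneg h5.le (by linarith), ?_⟩
    have h9 : bb ν δ n * (ν k - ν l) ≤ bb ν δ n * 1 := by
      gcongr
      linarith
    have h10 := h.δpos n
    nlinarith
  · exact ⟨le_rfl, by positivity⟩

lemma Num_bounds {k l n m : ℕ} (hkl : k < l) :
    (19 / 10) * (δ k * ν k ^ 8) ≤ Num ν δ k l n m ∧
      Num ν δ k l n m ≤ (21 / 10) * (δ k * ν k ^ 8) := by
  have hX : 0 < δ k * ν k ^ 8 := mul_pos (h.δpos k) (pow_pos (h.νpos k) 8)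
  have t1 := h.tailterm k l k n hkl le_rfl
  have t2 := h.tailterm k l l m hkl hkl.le
  unfold Num
  set q1 := (if k < n then bb ν δ n * (ν k - ν l) else 0)
  set q2 := (if l < m then bb ν δ m * (ν k - ν l) else 0)
  have hk := h.δpos k
  have hl := h.δpos l
  have nl := h.νpos l
  have nl1 := h.νle l
  have nk := h.νpos k
  -- ν l ^ 4 ≤ ν l ≤ 10^{-6} ν k ^ 8
  have e1 : ν l ^ 4 ≤ ν l := by
    have := h.pow_mono l (show 1 ≤ 4 by norm_num)
    rwa [pow_one] at this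
  have e2 := h.νlt' hkl (show 8 ≤ 10 by norm_num)
  have e3 : δ k * ν l ^ 4 ≤ δ k * ((1 / 1000000) * ν k ^ 8) := by
    gcongr
    exact e1.trans e2
  have e3' : 0 ≤ δ k * ν l ^ 4 := by positivity
  have e4 : δ l * ν l ^ 4 ≤ δ k * ν l ^ 4 := by
    gcongr
    have := h.δlt1 hkl
    linarith
  have e4' : 0 ≤ δ l * ν l ^ 4 := by positivity
  have e5 : aa ν δ k ≤ δ k / 1000000 := h.aale k
  have e6 := h.aapos k
  have e7 := h.aapos l
  have e8 := h.aale l
  have e9 := h.PPle (min l m) (min k n)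
  have e10 := h.lePP (min l m) (min k n)
  set P := PP ν (min l m) (min k n)
  have e11 : ν l * (aa ν δ k * P) ≤ (1 / 1000000) * ν k ^ 8 * δ k := by
    have : aa ν δ k * P ≤ δ k := by nlinarith
    calc ν l * (aa ν δ k * P) ≤ ν l * δ k := by gcongr
      _ ≤ _ := by gcongr
  have e12 : 0 ≤ ν l * (aa ν δ k * P) := by
    have : 0 ≤ P := by linarith
    positivity
  have e13 : 0 ≤ ν l * aa ν δ l := by positivity
  have e14 : ν l * aa ν δ l ≤ (1 / 1000000) * ν k ^ 8 * δ k := by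
    have : aa ν δ l ≤ δ k := by
      have := h.δlt1 hkl
      linarith
    calc ν l * aa ν δ l ≤ ν l * δ k := by gcongr
      _ ≤ _ := by gcongr
  constructor
  · nlinarith
  · nlinarith

lemma bb_lt {k l : ℕ} (hkl : k < l) : bb ν δ l ≤ bb ν δ k / 1000000 := by
  unfold bb
  have h1 := h.δlt1 hkl
  have h2 : ν l ^ 6 ≤ ν k ^ 6 := pow_le_pow_left₀ (h.νpos l).le (h.anti hkl.le) 6
  have h3 := h.νpos l
  have h4 := h.δpos k
  calc δ l * ν l ^ 6 ≤ (1 / 1000000 * δ k) * ν k ^ 6 := by gcongr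
    _ = _ := by ring

lemma Den_bounds {k l n m : ℕ} (hkl : k < l) :
    (99 / 100) * (δ k * ν k ^ 6) ≤ Den ν δ k l n m ∧
      Den ν δ k l n m ≤ (101 / 100) * (δ k * ν k ^ 6) := by
  have h1 := h.bb_lt hkl
  have h2 := h.bbpos l
  have h3 := h.bbpos k
  have h4 := h.PPle (min k n) (min l m)
  have h5 := h.lePP (min k n) (min l m)
  unfold Den
  have e : δ k * ν k ^ 6 = bb ν δ k := rfl
  rw [e]
  set P := PP ν (min k n) (min l m)
  constructor
  · nlinarith
  · nlinarith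

lemma Den_pos {k l n m : ℕ} (hkl : k < l) : 0 < Den ν δ k l n m := by
  have h1 := (h.Den_bounds (n := n) (m := m) hkl).1
  have : 0 < δ k * ν k ^ 6 := mul_pos (h.δpos k) (pow_pos (h.νpos k) 6)
  linarith

lemma AA_mul {k l n m : ℕ} (hkl : k < l) :
    AA ν δ k l n m * Den ν δ k l n m = Num ν δ k l n m := by
  unfold AA
  rw [div_mul_cancel₀]
  exact (h.Den_pos hkl).ne'

lemma AA_bounds {k l n m : ℕ} (hkl : k < l) :
    (18 / 10) * ν k ^ 2 ≤ AA ν δ k l n m ∧ AA ν δ k l n m ≤ (22 / 10) * ν k ^ 2 := by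
  obtain ⟨n1, n2⟩ := h.Num_bounds (n := n) (m := m) hkl
  obtain ⟨d1, d2⟩ := h.Den_bounds (n := n) (m := m) hkl
  have dp := h.Den_pos (n := n) (m := m) hkl
  have h6 : 0 < ν k ^ 2 := pow_pos (h.νpos k) 2
  have h7 : 0 < δ k * ν k ^ 6 := mul_pos (h.δpos k) (pow_pos (h.νpos k) 6)
  have h8 : δ k * ν k ^ 8 = (δ k * ν k ^ 6) * ν k ^ 2 := by ring
  have h9 : 0 < (δ k * ν k ^ 6) * ν k ^ 2 := by positivity
  unfold AA
  rw [h8] at n1 n2
  constructor
  · rw [le_div_iff₀ dp]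
    have : (18 / 10) * ν k ^ 2 * Den ν δ k l n m
        ≤ (18 / 10) * ν k ^ 2 * ((101 / 100) * (δ k * ν k ^ 6)) := by gcongr
    nlinarith
  · rw [div_le_iff₀ dp]
    have : (22 / 10) * ν k ^ 2 * ((99 / 100) * (δ k * ν k ^ 6))
        ≤ (22 / 10) * ν k ^ 2 * Den ν δ k l n m := by gcongr
    nlinarith

/-- The normalisation: the functional takes the value `rho` on the difference vector. -/
lemma Psi_sub {k l n m : ℕ} (hkl : k < l) :
    Psi ν δ k l n m k n - Psi ν δ k l n m l m = rho ν δ k l := by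
  have hA := h.AA_mul (n := n) (m := m) hkl
  unfold Den Num at hA
  unfold Psi F1 F2 alpha rho
  rw [h.PPself, h.PPself]
  unfold mm
  by_cases h1 : k < n <;> by_cases h2 : l < m <;> simp only [h1, h2, if_true, if_false] at hA ⊢ <;>
    unfold aa bb at hA ⊢ <;> linear_combination hA

end Rapid

end Pool.Agent.Lib.MP_0e6637_co
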