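import Pool.Agent.Lib.MP_0e6637_co.Scalar

set_option autoImplicit false

/-! Exposing estimates for the scalar functionals. -/

namespace Pool.Agent.Lib.MP_0e6637_co

namespace Rapid

variable {ν δ : ℕ → ℝ} (h : Rapid ν δ)
include h

/-- Estimate for tails. -/
lemma tail_part {t s n n' : ℕ} (hts : t ≤ s) (hn : s ≤ n) (hn' : s ≤ n') (hne : n ≠ n')
    (D : ℝ) (hD : ν s / 2 ≤ D) (X : ℝ) (hX0 : 0 ≤ X)
    (hX : X ≤ 3 * ((if s < n then δ n else 0) + (if s < n' then δ n' else 0))) :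
    X ^ 2 / 200 ≤ δ t * ((if s < n then D * (2 * mm ν s n * aa ν δ n - bb ν δ n) else 0)
      - (if s < n' then D * (2 * mm ν s n * aa ν δ n' - bb ν δ n') else 0)) := by
  have hs := h.νpos s
  have hDp : 0 < D := by linarith
  -- reduction to a single index
  have key : ∀ (y : ℕ) (T : ℝ), s < y → X ≤ (31 / 10) * δ y → D * bb ν δ y / 2 ≤ T →
      X ^ 2 / 200 ≤ δ t * T := by
    intro y T hy hXy hT
    have h1 := h.δpos y
    have h2 := h.δpos t
    have h3 := h.δlt_self (lt_of_le_of_lt hts hy)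
    have h4 := h.νpos y
    have h5 := h.anti hy.le
    have h6 : ν y ^ 8 ≤ ν y ^ 7 := h.pow_mono y (by norm_num)
    have h7 : ν y ^ 7 = ν y ^ 6 * ν y := by ring
    have e1 : X ^ 2 ≤ ((31 / 10) * δ y) ^ 2 := pow_le_pow_left₀ hX0 hXy 2
    have e2 : δ y ≤ (1 / 1000000) * (ν y ^ 6 * ν s) * δ t := by
      calc δ y ≤ (1 / 1000000) * ν y ^ 8 * δ t := h3
        _ ≤ (1 / 1000000) * (ν y ^ 6 * ν s) * δ t := by
            gcongr
            calc ν y ^ 8 ≤ ν y ^ 7 := h6
              _ = ν y ^ 6 * ν y := h7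
              _ ≤ ν y ^ 6 * ν s := by gcongr
    have e3 : δ t * (D * bb ν δ y / 2) ≤ δ t * T := by gcongr
    have e4 : δ t * ((ν s / 2) * bb ν δ y / 2) ≤ δ t * (D * bb ν δ y / 2) := by
      have := h.bbpos y
      gcongr
    have e5 : δ t * ((ν s / 2) * bb ν δ y / 2) = (ν y ^ 6 * ν s * δ t) * δ y / 4 := by
      unfold bb; ring
    have e6 : δ y * δ y ≤ ((1 / 1000000) * (ν y ^ 6 * ν s) * δ t) * δ y := by gcongr
    have e7 : 0 < (ν y ^ 6 * ν s * δ t) * δ y := by positivity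
    nlinarith
  rcases lt_or_gt_of_ne hne with hlt | hlt
  · -- n < n'
    have hsn' : s < n' := lt_of_le_of_lt hn hlt
    rw [if_pos hsn'] at hX ⊢
    rcases hn.eq_or_lt with heq | hsn
    · subst heq
      have hm : mm ν s s = 0 := by unfold mm; simp
      rw [if_neg (lt_irrefl s)] at hX ⊢
      rw [hm]
      have h1 := h.δpos n'
      apply key n' _ hsn' (by linarith)
      have h2 := h.bbpos n'
      nlinarith [mul_pos hDp h2]
    · rw [if_pos hsn] at hX ⊢
      have hm : mm ν s n = ν n ^ 2 := by unfold mm; rw [if_pos hsn]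
      rw [hm]
      have h1 := h.δpos n
      have h1' := h.δpos n'
      have h2 := h.δlt1 hlt
      apply key n _ hsn (by linarith)
      have h3 : ν n ^ 2 * aa ν δ n = bb ν δ n := by unfold aa bb; ring
      have h4 := h.bbpos n
      have h5 := h.bbpos n'
      have h6 := h.aale n'
      -- 2 ν_n^2 a_{n'} ≤ b_n / 2
      have h7 : δ n' ≤ (1 / 1000000) * ν n ^ 4 * δ n := h.δlt' hlt (by norm_num)
      have h8 : ν n ^ 2 * aa ν δ n' ≤ (1 / 1000000) * bb ν δ n := by
        have e0 := h.aapos n'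
        calc ν n ^ 2 * aa ν δ n' ≤ ν n ^ 2 * ((1 / 1000000) * ν n ^ 4 * δ n) := by
              gcongr
              linarith
          _ = (1 / 1000000) * bb ν δ n := by unfold bb; ring
      have h9 : D * (2 * ν n ^ 2 * aa ν δ n - bb ν δ n) - D * (2 * ν n ^ 2 * aa ν δ n' - bb ν δ n')
          = D * (bb ν δ n - 2 * (ν n ^ 2 * aa ν δ n') + bb ν δ n') := by
        rw [← h3]; ring
      rw [h9]
      have h10 : D * bb ν δ n / 2 = D * (bb ν δ n / 2) := by ring
      rw [h10]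
      gcongr
      linarith
  · -- n' < n
    have hsn : s < n := lt_of_le_of_lt hn' hlt
    rw [if_pos hsn] at hX ⊢
    have hm : mm ν s n = ν n ^ 2 := by unfold mm; rw [if_pos hsn]
    rw [hm]
    have h3 : ν n ^ 2 * aa ν δ n = bb ν δ n := by unfold aa bb; ring
    have h4 := h.bbpos n
    have h1 := h.δpos n
    rcases hn'.eq_or_lt with heq | hsn'
    · subst heq
      rw [if_neg (lt_irrefl s)] at hX ⊢
      apply key n _ hsn (by linarith)
      have h9 : D * (2 * ν n ^ 2 * aa ν δ n - bb ν δ n) - 0 = D * bb ν δ n := by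
        rw [← h3]; ring
      rw [h9]
      nlinarith [mul_pos hDp h4]
    · rw [if_pos hsn'] at hX ⊢
      have h1' := h.δpos n'
      have h2 := h.δlt1 hlt
      apply key n' _ hsn' (by linarith)
      have h5 := h.bbpos n'
      have h6 := h.aapos n'
      have h7 : 2 * ν n ^ 2 * aa ν δ n' ≤ bb ν δ n' / 2 := by
        have e1 := h.half hlt
        have e2 : ν n ^ 2 ≤ (ν n' / 2) ^ 2 := pow_le_pow_left₀ (h.νpos n).le e1 2
        have e3 : bb ν δ n' = ν n' ^ 2 * aa ν δ n' := by unfold aa bb; ring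
        rw [e3]
        nlinarith
      have h9 : D * (2 * ν n ^ 2 * aa ν δ n - bb ν δ n) - D * (2 * ν n ^ 2 * aa ν δ n' - bb ν δ n')
          = D * (bb ν δ n + (bb ν δ n' - 2 * ν n ^ 2 * aa ν δ n')) := by
        rw [← h3]; ring
      rw [h9]
      have h10 : D * bb ν δ n' / 2 = D * (bb ν δ n' / 2) := by ring
      rw [h10]
      gcongr
      linarith

/-- Crude bound for tail values. -/
lemma F2_abs (k l n m y x : ℕ) : |F2 ν δ k l n m y x| ≤ aa ν δ y / 100 := by
  have h1 := h.mmnonneg k n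
  have h2 := h.mmle k n
  have h3 := h.mmnonneg l m
  have h4 := h.mmle l m
  have h5 := h.aapos y
  have h6 := h.bbpos y
  have h7 := h.bble y
  have a1 := h.abs_sub_le x l
  have a2 := h.abs_sub_le k x
  rw [abs_le] at a1 a2
  unfold F2
  have e1 : |2 * mm ν k n * (ν x - ν l) - 2 * mm ν l m * (ν k - ν x)| ≤ 1 / 1000 := by
    rw [abs_le]
    constructor <;> nlinarith
  have e2 : |(ν k - ν x) - (ν x - ν l)| ≤ 1 := by
    rw [abs_le]
    constructor <;> linarith
  have e3 := abs_add_le (aa ν δ y * (2 * mm ν k n * (ν x - ν l) - 2 * mm ν l m * (ν k - ν x)))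
    (bb ν δ y * ((ν k - ν x) - (ν x - ν l)))
  rw [abs_mul, abs_mul, abs_of_pos h5, abs_of_pos h6] at e3
  have e4 : aa ν δ y * |2 * mm ν k n * (ν x - ν l) - 2 * mm ν l m * (ν k - ν x)|
      ≤ aa ν δ y * (1 / 1000) := by gcongr
  have e5 : bb ν δ y * |(ν k - ν x) - (ν x - ν l)| ≤ bb ν δ y * 1 := by gcongr
  linarith

/-- Bound for the conditional tail value. -/
lemma tail_abs (k l n m s y x : ℕ) :
    |if s < y then F2 ν δ k l n m y x else 0| ≤ (1 / 1000000) * ν s ^ 10 * δ s / 1000000 := by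
  have h1 := h.δpos s
  have h2 := h.νpos s
  split_ifs with hs
  · have h3 := h.F2_abs k l n m y x
    have h4 := h.aale y
    have h5 := h.δlt' hs (show 10 ≤ 10 by norm_num)
    have h6 := h.δpos y
    have : 0 ≤ (1 / 1000000) * ν s ^ 10 * δ s := by positivity
    linarith
  · rw [abs_zero]
    positivity

lemma tail_len {s y : ℕ} : 0 ≤ (if s < y then δ y else 0) ∧
    (if s < y then δ y else 0) ≤ (1 / 1000000) * ν s ^ 10 * δ s := by
  have h1 := h.δpos s
  have h2 := h.νpos s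
  split_ifs with hs
  · exact ⟨(h.δpos y).le, h.δlt' hs (show 10 ≤ 10 by norm_num)⟩
  · exact ⟨le_rfl, by positivity⟩

lemma PP_diff (i j j' : ℕ) : |PP ν i j - PP ν i j'| ≤ |ν j - ν j'| / 100 := by
  unfold PP
  have e : 1 - (ν i - ν j) ^ 2 - (1 - (ν i - ν j') ^ 2) = (ν j - ν j') * ((ν i - ν j) + (ν i - ν j')) := by
    ring
  rw [e, abs_mul]
  have h1 := h.abs_sub_le i j
  have h2 := h.abs_sub_le i j'
  have h3 := abs_add_le (ν i - ν j) (ν i - ν j')
  have h4 : |ν j - ν j'| * |(ν i - ν j) + (ν i - ν j')| ≤ |ν j - ν j'| * (1 / 100) := by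
    gcongr
    linarith
  linarith

/-- The functional is strongly maximised over the `k`-points at the chosen one. -/
lemma p_part {k l : ℕ} (hkl : k < l) (n m n' : ℕ) (X : ℝ) (hX0 : 0 ≤ X)
    (hX : X ≤ 3 * (aa ν δ k * |ν (min k n) - ν (min k n')| +
      if n = n' then 0 else ((if k < n then δ n else 0) + (if k < n' then δ n' else 0)))) :
    X ^ 2 / 200 ≤ δ k * (Psi ν δ k l n m k n - Psi ν δ k l n m k n') := by
  have hk := h.δpos k
  by_cases hnn : n = n'
  · subst hnn
    have : X = 0 := by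
      apply le_antisymm _ hX0
      simpa using hX
    subst this
    simp
  rw [if_neg hnn] at hX
  by_cases hmin : min k n = min k n'
  · -- tails
    have hkn : k ≤ n ∧ k ≤ n' := by omega
    rw [hmin, sub_self, abs_zero, mul_zero, zero_add] at hX
    have h1 := h.half hkl
    have h2 := h.νpos k
    have := h.tail_part (t := k) (s := k) le_rfl hkn.1 hkn.2 hnn (ν k - ν l) (by linarith) X hX0 hX
    convert this using 2
    unfold Psi F2
    rw [hmin]
    split_ifs <;> ring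
  · -- distinct main indices
    set i := min k n with hi
    set i' := min k n' with hi'
    have hsep : ν k ≤ |ν i - ν i'| := h.sep (min_le_left _ _) (min_le_left _ _) hmin
    have hg1 := h.abs_sub_le i i'
    have hg2 : (1 : ℝ) - PP ν i i' = |ν i - ν i'| ^ 2 := by
      rw [sq_abs]; unfold PP; ring
    have hcross := h.PP_diff (min l m) i i'
    have ht1 := h.tail_abs k l n m k n k
    have ht2 := h.tail_abs k l n m k n' k
    have hl1 := h.tail_len (s := k) (y := n)
    have hl2 := h.tail_len (s := k) (y := n')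
    have hA := (h.AA_bounds (n := n) (m := m) hkl).1
    have hw := h.νlt k l hkl
    have hw0 := h.νpos l
    have hx := h.νpos k
    have hx1 := h.νle k
    have e0 : Psi ν δ k l n m k n - Psi ν δ k l n m k n'
        = AA ν δ k l n m * (bb ν δ k * (1 - PP ν i i'))
          - ν l * (aa ν δ k * (PP ν (min l m) i - PP ν (min l m) i'))
          + ((if k < n then F2 ν δ k l n m n k else 0)
          - (if k < n' then F2 ν δ k l n m n' k else 0)) := by
      unfold Psi F1
      rw [← hi, ← hi', h.PPself]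
      ring
    rw [e0, hg2]
    set g := |ν i - ν i'| with hg
    set T1 := (if k < n then F2 ν δ k l n m n k else 0)
    set T2 := (if k < n' then F2 ν δ k l n m n' k else 0)
    set L1 := (if k < n then δ n else 0)
    set L2 := (if k < n' then δ n' else 0)
    set cr := PP ν (min l m) i - PP ν (min l m) i'
    set A := AA ν δ k l n m
    set x := ν k with hxdef
    set Δ := δ k with hΔ
    have haa : aa ν δ k = Δ * x ^ 4 := rfl
    have hbb : bb ν δ k = Δ * x ^ 6 := rfl
    rw [haa] at hX ⊢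
    rw [hbb]
    have hg0 : 0 < g := lt_of_lt_of_le hx hsep
    -- powers
    have p1 : x ^ 10 ≤ x ^ 8 * g ^ 2 := by
      calc x ^ 10 = x ^ 8 * x ^ 2 := by ring
        _ ≤ x ^ 8 * g ^ 2 := by gcongr
    have p2 : x ^ 10 ≤ x ^ 4 * g := by
      have : x ^ 10 ≤ x ^ 5 := h.pow_mono k (by norm_num)
      calc x ^ 10 ≤ x ^ 5 := this
        _ = x ^ 4 * x := by ring
        _ ≤ x ^ 4 * g := by gcongr
    have p3 : x ^ 10 * x ^ 4 * g ≤ x ^ 8 * g ^ 2 := by
      have e1 : x ^ 5 ≤ 1 := pow_le_one₀ hx.le (h.νle1 k)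
      calc x ^ 10 * x ^ 4 * g = (x ^ 5 * x) * (x ^ 8 * g) := by ring
        _ ≤ (1 * g) * (x ^ 8 * g) := by gcongr
        _ = x ^ 8 * g ^ 2 := by ring
    have q1 : X ≤ (31 / 10) * (Δ * x ^ 4 * g) := by
      have : (1 / 1000000) * x ^ 10 * Δ ≤ (1 / 1000000) * (x ^ 4 * g) * Δ := by gcongr
      nlinarith
    have q2 : X ^ 2 ≤ ((31 / 10) * (Δ * x ^ 4 * g)) ^ 2 := pow_le_pow_left₀ hX0 q1 2
    have q3 : Δ * ((18 / 10) * x ^ 2 * (Δ * x ^ 6 * g ^ 2)) ≤ Δ * (A * (Δ * x ^ 6 * g ^ 2)) := by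
      gcongr
    have q4 : Δ * (ν l * (Δ * x ^ 4 * cr)) ≤ (1 / 1000000) * (Δ ^ 2 * (x ^ 8 * g ^ 2)) := by
      have e1 : cr ≤ g := by
        have := (abs_le.1 hcross).2
        linarith
      calc Δ * (ν l * (Δ * x ^ 4 * cr)) ≤ Δ * (ν l * (Δ * x ^ 4 * g)) := by gcongr
        _ ≤ Δ * (((1 / 1000000) * x ^ 10) * (Δ * x ^ 4 * g)) := by gcongr
        _ = (1 / 1000000) * (Δ ^ 2 * (x ^ 10 * x ^ 4 * g)) := by ring
        _ ≤ _ := by gcongr
    have q5 : Δ * ((1 / 1000000) * x ^ 10 * Δ / 1000000) ≤ (1 / 1000000) * (Δ ^ 2 * (x ^ 8 * g ^ 2)) := by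
      calc Δ * ((1 / 1000000) * x ^ 10 * Δ / 1000000)
          = (1 / 1000000) * (Δ ^ 2 * x ^ 10) / 1000000 := by ring
        _ ≤ (1 / 1000000) * (Δ ^ 2 * (x ^ 8 * g ^ 2)) / 1000000 := by gcongr
        _ ≤ _ := by
          have : 0 ≤ (1 / 1000000) * (Δ ^ 2 * (x ^ 8 * g ^ 2)) := by positivity
          linarith
    have q6 : Δ * (T1 - T2) ≥ - (2 * ((1 / 1000000) * (Δ ^ 2 * (x ^ 8 * g ^ 2)))) := by
      have e1 := (abs_le.1 ht1).1
      have e2 := (abs_le.1 ht2).2
      have e3 : -(2 * ((1 / 1000000) * x ^ 10 * Δ / 1000000)) ≤ T1 - T2 := by linarith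
      have e4 : Δ * (-(2 * ((1 / 1000000) * x ^ 10 * Δ / 1000000))) ≤ Δ * (T1 - T2) := by gcongr
      linarith
    have q7 : Δ * ((18 / 10) * x ^ 2 * (Δ * x ^ 6 * g ^ 2)) = (18 / 10) * (Δ ^ 2 * (x ^ 8 * g ^ 2)) := by
      ring
    have q8 : ((31 / 10) * (Δ * x ^ 4 * g)) ^ 2 = (961 / 100) * (Δ ^ 2 * (x ^ 8 * g ^ 2)) := by ring
    have q9 : 0 < Δ ^ 2 * (x ^ 8 * g ^ 2) := by positivity
    rw [q7] at q3
    rw [q8] at q2
    nlinarith

/-- The functional is strongly minimised over the `l`-points at the chosen one. -/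
lemma q_part {k l : ℕ} (hkl : k < l) (n m m' : ℕ) (X : ℝ) (hX0 : 0 ≤ X)
    (hX : X ≤ 3 * (aa ν δ l * |ν (min l m) - ν (min l m')| +
      if m = m' then 0 else ((if l < m then δ m else 0) + (if l < m' then δ m' else 0)))) :
    X ^ 2 / 200 ≤ δ k * (Psi ν δ k l n m l m' - Psi ν δ k l n m l m) := by
  have hk := h.δpos k
  have hl := h.δpos l
  by_cases hnn : m = m'
  · subst hnn
    have : X = 0 := by
      apply le_antisymm _ hX0
      simpa using hX
    subst this
    simp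
  rw [if_neg hnn] at hX
  by_cases hmin : min l m = min l m'
  · -- tails
    have hkn : l ≤ m ∧ l ≤ m' := by omega
    rw [hmin, sub_self, abs_zero, mul_zero, zero_add] at hX
    have h1 := h.half hkl
    have h2 := h.νpos k
    have := h.tail_part (t := k) (s := l) hkl.le hkn.1 hkn.2 hnn (ν k - ν l)
      (by have := h.νpos l; linarith) X hX0 hX
    convert this using 2
    unfold Psi F2
    rw [hmin]
    split_ifs <;> ring
  · -- distinct main indices
    set i := min l m with hi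
    set i' := min l m' with hi'
    have hsep : ν l ≤ |ν i - ν i'| := h.sep (min_le_left _ _) (min_le_left _ _) hmin
    have hg1 := h.abs_sub_le i i'
    have hg2 : (1 : ℝ) - PP ν i i' = |ν i - ν i'| ^ 2 := by
      rw [sq_abs]; unfold PP; ring
    have hcross := h.PP_diff (min k n) i i'
    have ht1 := h.tail_abs k l n m l m l
    have ht2 := h.tail_abs k l n m l m' l
    have hl1 := h.tail_len (s := l) (y := m)
    have hl2 := h.tail_len (s := l) (y := m')
    have hA := (h.AA_bounds (n := n) (m := m) hkl).2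
    have hA0 := (h.AA_bounds (n := n) (m := m) hkl).1
    have hx := h.νpos l
    have hx1 := h.νle l
    have hkk := h.νle k
    have hkp := h.νpos k
    have hδ : δ l ≤ δ k := by
      have := h.δlt1 hkl
      linarith
    have e0 : Psi ν δ k l n m l m' - Psi ν δ k l n m l m
        = ν l * (aa ν δ l * (1 - PP ν i i'))
          - AA ν δ k l n m * (bb ν δ l * (PP ν (min k n) i - PP ν (min k n) i'))
          + ((if l < m' then F2 ν δ k l n m m' l else 0)
          - (if l < m then F2 ν δ k l n m m l else 0)) := by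
      unfold Psi F1
      rw [← hi, ← hi', h.PPself]
      ring
    rw [e0, hg2]
    set g := |ν i - ν i'| with hg
    set T1 := (if l < m then F2 ν δ k l n m m l else 0)
    set T2 := (if l < m' then F2 ν δ k l n m m' l else 0)
    set L1 := (if l < m then δ m else 0)
    set L2 := (if l < m' then δ m' else 0)
    set cr := PP ν (min k n) i - PP ν (min k n) i'
    set A := AA ν δ k l n m
    set x := ν l with hxdef
    set Δ := δ l with hΔ
    have haa : aa ν δ l = Δ * x ^ 4 := rfl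
    have hbb : bb ν δ l = Δ * x ^ 6 := rfl
    rw [haa] at hX ⊢
    rw [hbb]
    have hg0 : 0 < g := lt_of_lt_of_le hx hsep
    have hA1 : A ≤ 1 := by
      have : ν k ^ 2 ≤ (1 / 1000) ^ 2 := pow_le_pow_left₀ hkp.le hkk 2
      norm_num at this
      linarith
    have hAp : 0 ≤ A := by
      have : 0 < ν k ^ 2 := by positivity
      linarith
    -- powers
    have p1 : x ^ 10 ≤ (1 / 1000000) * (x ^ 5 * g ^ 2) := by
      have e1 : x ^ 3 ≤ (1 / 1000) ^ 3 := pow_le_pow_left₀ hx.le hx1 3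
      calc x ^ 10 = x ^ 3 * (x ^ 5 * x ^ 2) := by ring
        _ ≤ (1 / 1000) ^ 3 * (x ^ 5 * g ^ 2) := by gcongr
        _ ≤ _ := by
          have : 0 ≤ x ^ 5 * g ^ 2 := by positivity
          norm_num
          linarith
    have p2 : x ^ 10 ≤ x ^ 4 * g := by
      have : x ^ 10 ≤ x ^ 5 := h.pow_mono l (by norm_num)
      calc x ^ 10 ≤ x ^ 5 := this
        _ = x ^ 4 * x := by ring
        _ ≤ x ^ 4 * g := by gcongr
    have q1 : X ≤ (31 / 10) * (Δ * x ^ 4 * g) := by
      have : (1 / 1000000) * x ^ 10 * Δ ≤ (1 / 1000000) * (x ^ 4 * g) * Δ := by gcongr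
      nlinarith
    have q2 : X ^ 2 ≤ ((31 / 10) * (Δ * x ^ 4 * g)) ^ 2 := pow_le_pow_left₀ hX0 q1 2
    have q8 : ((31 / 10) * (Δ * x ^ 4 * g)) ^ 2 ≤ (961 / 100) * (Δ * (Δ * (x ^ 5 * g ^ 2))) := by
      have e1 : x ^ 3 ≤ 1 := pow_le_one₀ hx.le (h.νle1 l)
      calc ((31 / 10) * (Δ * x ^ 4 * g)) ^ 2 = (961 / 100) * (Δ * (Δ * (x ^ 3 * (x ^ 5 * g ^ 2)))) := by ring
        _ ≤ (961 / 100) * (Δ * (Δ * (1 * (x ^ 5 * g ^ 2)))) := by gcongr
        _ = _ := by ring
    have q4 : A * (Δ * x ^ 6 * cr) ≤ (1 / 100) * (Δ * (x ^ 5 * g ^ 2)) := by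
      have e1 : cr ≤ g / 100 := by
        have := (abs_le.1 hcross).2
        linarith
      have e2 : Δ * x ^ 6 * cr ≤ (1 / 100) * (Δ * (x ^ 5 * g ^ 2)) := by
        calc Δ * x ^ 6 * cr ≤ Δ * x ^ 6 * (g / 100) := by gcongr
          _ = (1 / 100) * (Δ * (x ^ 5 * (x * g))) := by ring
          _ ≤ (1 / 100) * (Δ * (x ^ 5 * (g * g))) := by gcongr
          _ = _ := by ring
      have e3 : 0 ≤ (1 / 100) * (Δ * (x ^ 5 * g ^ 2)) := by positivity
      calc A * (Δ * x ^ 6 * cr) ≤ A * ((1 / 100) * (Δ * (x ^ 5 * g ^ 2))) := by gcongr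
        _ ≤ 1 * ((1 / 100) * (Δ * (x ^ 5 * g ^ 2))) := by gcongr
        _ = _ := by ring
    have q5 : (1 / 1000000) * x ^ 10 * Δ / 1000000 ≤ (1 / 1000000) * (Δ * (x ^ 5 * g ^ 2)) := by
      calc (1 / 1000000) * x ^ 10 * Δ / 1000000
          = (1 / 1000000) * (Δ * x ^ 10) / 1000000 := by ring
        _ ≤ (1 / 1000000) * (Δ * ((1 / 1000000) * (x ^ 5 * g ^ 2))) / 1000000 := by gcongr
        _ ≤ _ := by
          have : 0 ≤ Δ * (x ^ 5 * g ^ 2) := by positivity
          linarith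
    have q6 : - (2 * ((1 / 1000000) * (Δ * (x ^ 5 * g ^ 2)))) ≤ T2 - T1 := by
      have e1 := (abs_le.1 ht1).2
      have e2 := (abs_le.1 ht2).1
      linarith
    have q9 : 0 < Δ * (x ^ 5 * g ^ 2) := by positivity
    have q10 : (9 / 10) * (Δ * (x ^ 5 * g ^ 2)) ≤ x * (Δ * x ^ 4 * g ^ 2) - A * (Δ * x ^ 6 * cr) + (T2 - T1) := by
      have : x * (Δ * x ^ 4 * g ^ 2) = Δ * (x ^ 5 * g ^ 2) := by ring
      rw [this]
      linarith
    calc X ^ 2 / 200 ≤ (961 / 100) * (Δ * (Δ * (x ^ 5 * g ^ 2))) / 200 := by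
          have := q2.trans q8
          linarith
      _ ≤ Δ * ((9 / 10) * (Δ * (x ^ 5 * g ^ 2))) := by
          have : 0 < Δ * (Δ * (x ^ 5 * g ^ 2)) := by positivity
          linarith
      _ ≤ δ k * ((9 / 10) * (Δ * (x ^ 5 * g ^ 2))) := by gcongr
      _ ≤ _ := by gcongr

end Rapid

end Pool.Agent.Lib.MP_0e6637_co
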