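import Pool.Agent.Lib.MP_0e6637_co.Scalar2

set_option autoImplicit false

/-! Estimates comparing different pairs of levels. -/

namespace Pool.Agent.Lib.MP_0e6637_co

namespace Rapid

variable {ν δ : ℕ → ℝ} (h : Rapid ν δ)
include h

lemma alpha_bounds (k l : ℕ) : 9 / 10 ≤ alpha ν k l ∧ alpha ν k l ≤ 1 := by
  have h1 := h.νle k
  have h2 := h.νpos k
  have h3 := h.νle l
  have h4 := h.νpos l
  have e1 : ν k ^ 8 ≤ (1 / 1000) ^ 8 := pow_le_pow_left₀ h2.le h1 8
  have e2 : ν l ^ 4 ≤ (1 / 1000) ^ 4 := pow_le_pow_left₀ h4.le h3 4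
  have e3 : 0 ≤ ν k ^ 8 := by positivity
  have e4 : 0 ≤ ν l ^ 4 := by positivity
  norm_num at e1 e2
  unfold alpha
  constructor <;> linarith

lemma rho_bounds {k l : ℕ} (hkl : k < l) :
    (99 / 100) * δ k ≤ rho ν δ k l ∧ rho ν δ k l ≤ (101 / 100) * δ k := by
  have h1 := h.νle k
  have h2 := h.νpos k
  have h3 := h.νle l
  have h4 := h.νpos l
  have e1 : ν k ^ 8 ≤ (1 / 1000) ^ 8 := pow_le_pow_left₀ h2.le h1 8
  have e2 : ν l ^ 4 ≤ (1 / 1000) ^ 4 := pow_le_pow_left₀ h4.le h3 4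
  have e3 : 0 ≤ ν k ^ 8 := by positivity
  have e4 : 0 ≤ ν l ^ 4 := by positivity
  norm_num at e1 e2
  have h5 := h.δlt1 hkl
  have h6 := h.δpos k
  have h7 := h.δpos l
  unfold rho
  constructor <;> nlinarith

lemma rho_pos {k l : ℕ} (hkl : k < l) : 0 < rho ν δ k l := by
  have := (h.rho_bounds hkl).1
  have h6 := h.δpos k
  linarith

/-- Deviation of `Psi` from its main part. -/
lemma Psi_err {k l : ℕ} (hkl : k < l) (n m y x : ℕ) :
    |Psi ν δ k l n m y x - alpha ν k l * δ y| ≤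
      ν l * aa ν δ y + (22 / 10) * ν k ^ 2 * bb ν δ y + (1 / 1000000) * ν y ^ 10 * δ y / 1000000 := by
  have ht := h.tail_abs k l n m y x y
  have hA := (h.AA_bounds (n := n) (m := m) hkl).2
  have hA0 := (h.AA_bounds (n := n) (m := m) hkl).1
  have hk2 : 0 < ν k ^ 2 := pow_pos (h.νpos k) 2
  have ha := h.aapos y
  have hb := h.bbpos y
  have hw := h.νpos l
  have P1 := h.PPle (min l m) (min y x)
  have P2 := h.lePP (min l m) (min y x)
  have P3 := h.PPle (min k n) (min y x)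
  have P4 := h.lePP (min k n) (min y x)
  unfold Psi F1
  set P := PP ν (min l m) (min y x)
  set P' := PP ν (min k n) (min y x)
  set A := AA ν δ k l n m
  set T := (if y < x then F2 ν δ k l n m x y else 0)
  have e1 : |ν l * (aa ν δ y * P)| ≤ ν l * aa ν δ y := by
    rw [abs_of_nonneg (by positivity)]
    have : aa ν δ y * P ≤ aa ν δ y * 1 := by gcongr
    calc ν l * (aa ν δ y * P) ≤ ν l * (aa ν δ y * 1) := by gcongr
      _ = _ := by ring
  have e2 : |A * (bb ν δ y * P')| ≤ (22 / 10) * ν k ^ 2 * bb ν δ y := by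
    have hAp : 0 ≤ A := by linarith
    rw [abs_of_nonneg (by positivity)]
    calc A * (bb ν δ y * P') ≤ A * (bb ν δ y * 1) := by gcongr
      _ ≤ ((22 / 10) * ν k ^ 2) * (bb ν δ y * 1) := by gcongr
      _ = _ := by ring
  have e3 : alpha ν k l * δ y - ν l * (aa ν δ y * P) + A * (bb ν δ y * P') + T - alpha ν k l * δ y
      = - (ν l * (aa ν δ y * P)) + A * (bb ν δ y * P') + T := by ring
  rw [e3]
  calc |-(ν l * (aa ν δ y * P)) + A * (bb ν δ y * P') + T|
      ≤ |-(ν l * (aa ν δ y * P)) + A * (bb ν δ y * P')| + |T| := abs_add_le _ _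
    _ ≤ |-(ν l * (aa ν δ y * P))| + |A * (bb ν δ y * P')| + |T| := by
        gcongr; exact abs_add_le _ _
    _ ≤ _ := by
        rw [abs_neg]
        linarith

lemma Psi_err' {k l : ℕ} (hkl : k < l) (n m y x : ℕ) :
    |Psi ν δ k l n m y x - alpha ν k l * δ y| ≤ aa ν δ y / 500 := by
  have h0 := h.Psi_err hkl n m y x
  have ha := h.aapos y
  have hb := h.bbpos y
  have h1 := h.bble y
  have hl := h.νle l
  have hk : ν k ^ 2 ≤ 1 / 1000000 := by
    calc ν k ^ 2 ≤ (1 / 1000) ^ 2 := pow_le_pow_left₀ (h.νpos k).le (h.νle k) 2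
      _ = _ := by norm_num
  have e1 : ν l * aa ν δ y ≤ (1 / 1000) * aa ν δ y := by gcongr
  have e2 : (22 / 10) * ν k ^ 2 * bb ν δ y ≤ (22 / 10) * (1 / 1000000) * bb ν δ y := by gcongr
  have e3 : (1 / 1000000) * ν y ^ 10 * δ y ≤ aa ν δ y := by
    have : ν y ^ 10 ≤ ν y ^ 4 := h.pow_mono y (by norm_num)
    have h3 := h.δpos y
    have h4 := h.νpos y
    calc (1 / 1000000) * ν y ^ 10 * δ y ≤ 1 * ν y ^ 4 * δ y := by
          gcongr
          norm_num
      _ = aa ν δ y := by unfold aa; ring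
  linarith

/-- The functional is nonnegative and at most of order `δ` on differences. -/
lemma Psi_diff_bounds {k l : ℕ} (hkl : k < l) (n m : ℕ) {k' l' : ℕ} (hkl' : k' < l') (n' m' : ℕ) :
    0 ≤ Psi ν δ k l n m k' n' - Psi ν δ k l n m l' m' := by
  have e1 := (abs_le.1 (h.Psi_err' hkl n m k' n')).1
  have e2 := (abs_le.1 (h.Psi_err' hkl n m l' m')).2
  have a := h.alpha_bounds k l
  have b1 := h.aale k'
  have b2 := h.aale l'
  have c1 := h.δpos k'
  have c2 := h.δpos l'
  have c3 := h.δlt1 hkl'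
  nlinarith

/-- Comparison for equal first level and different second levels. -/
lemma case_two {k l l' : ℕ} (hkl : k < l) (hkl' : k < l') (hne : l ≠ l') (n m n' m' : ℕ) :
    (Psi ν δ k l n m k n - Psi ν δ k l n m k n') + aa ν δ (min l l') / 2 ≤
      rho ν δ k l' - (Psi ν δ k l n m k n' - Psi ν δ k l n m l' m') := by
  have h0 := h.Psi_sub (n := n) (m := m) hkl
  have e1 := (abs_le.1 (h.Psi_err' hkl n m l m)).2
  have e2 := (abs_le.1 (h.Psi_err' hkl n m l' m')).1
  have key : aa ν δ (min l l') / 2 ≤ (rho ν δ k l' - rho ν δ k l) - Psi ν δ k l n m l m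
      + Psi ν δ k l n m l' m' := by
    have e3 : (rho ν δ k l' - rho ν δ k l) - alpha ν k l * δ l + alpha ν k l * δ l'
        = aa ν δ l + (2 * aa ν δ l' - 3 * (δ l' * ν l ^ 4)) := by
      unfold rho alpha aa; ring
    have a1 := h.aapos l
    have a2 := h.aapos l'
    rcases lt_or_gt_of_ne hne with hlt | hlt
    · rw [min_eq_left hlt.le]
      have b1 : aa ν δ l' ≤ aa ν δ l / 1000000 := by
        have c1 := h.δlt' hlt (show 4 ≤ 10 by norm_num)
        have c2 := h.aale l'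
        have c3 := h.δpos l'
        have c4 : (1 / 1000000) * ν l ^ 4 * δ l = aa ν δ l / 1000000 := by unfold aa; ring
        linarith
      have b2 : δ l' * ν l ^ 4 ≤ aa ν δ l / 1000000 := by
        have c1 := h.δlt1 hlt
        have c3 := h.νpos l
        calc δ l' * ν l ^ 4 ≤ (1 / 1000000 * δ l) * ν l ^ 4 := by gcongr
          _ = _ := by unfold aa; ring
      linarith
    · rw [min_eq_right hlt.le]
      have b1 : aa ν δ l ≤ aa ν δ l' := by
        have c1 := h.δlt1 hlt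
        have c2 := h.anti hlt.le
        have c3 := h.νpos l
        have c4 := h.δpos l'
        unfold aa
        gcongr
        linarith
      have b2 : δ l' * ν l ^ 4 ≤ aa ν δ l' / 16 := by
        have c1 := h.half hlt
        have c3 := h.νpos l
        have c4 := h.δpos l'
        calc δ l' * ν l ^ 4 ≤ δ l' * (ν l' / 2) ^ 4 := by gcongr
          _ = _ := by unfold aa; ring
      linarith
  linarith

/-- Comparison for different first levels. -/
lemma case_three {k l k' l' : ℕ} (hkl : k < l) (hkl' : k' < l') (hne : k' ≠ k) (n m n' m' : ℕ) :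
    (δ k' * ν k' ^ 8 + δ k' * ν k ^ 8) / 2 ≤
      rho ν δ k' l' - (Psi ν δ k l n m k' n' - Psi ν δ k l n m l' m') := by
  have e1 := (abs_le.1 (h.Psi_err hkl n m k' n')).2
  have e2 := (abs_le.1 (h.Psi_err' hkl n m l' m')).1
  have dk := h.δpos k
  have dk' := h.δpos k'
  have dl' := h.δpos l'
  have nk := h.νpos k
  have nk' := h.νpos k'
  have nl := h.νpos l
  have nl' := h.νpos l'
  have e3 : rho ν δ k' l' - alpha ν k l * δ k' + alpha ν k l * δ l'
      = δ k' * ν k' ^ 8 + δ k' * ν k ^ 8 + 3 * (δ k' * ν l ^ 4) + δ l' * (ν k' ^ 8 + 2 * ν l' ^ 4)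
        - δ l' * (ν k ^ 8 + 3 * ν l ^ 4) := by
    unfold rho alpha; ring
  -- small terms
  have s0 : ν l ≤ (1 / 1000000) * ν k ^ 8 := h.νlt' hkl (by norm_num)
  have s1 : δ l' * (ν k ^ 8 + 3 * ν l ^ 4) ≤ (1 / 100000) * (δ k' * ν k ^ 8) := by
    have c1 := h.δlt1 hkl'
    have c2 : ν l ^ 4 ≤ ν l := by
      have := h.pow_mono l (show 1 ≤ 4 by norm_num)
      rwa [pow_one] at this
    have c3 : 0 < ν k ^ 8 := by positivity
    have c4 : ν k ^ 8 + 3 * ν l ^ 4 ≤ 2 * ν k ^ 8 := by linarith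
    calc δ l' * (ν k ^ 8 + 3 * ν l ^ 4) ≤ (1 / 1000000 * δ k') * (2 * ν k ^ 8) := by gcongr
      _ ≤ _ := by
        have : 0 < δ k' * ν k ^ 8 := by positivity
        linarith
  have s2 : ν l * aa ν δ k' ≤ (1 / 100000) * (δ k' * ν k' ^ 8 + δ k' * ν k ^ 8) := by
    have c1 := h.aale k'
    have c2 := h.aapos k'
    have c3 : 0 < δ k' * ν k' ^ 8 := by positivity
    have c4 : 0 < δ k' * ν k ^ 8 := by positivity
    calc ν l * aa ν δ k' ≤ ((1 / 1000000) * ν k ^ 8) * δ k' := by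
          gcongr
          linarith
      _ ≤ _ := by linarith
  have s3 : (22 / 10) * ν k ^ 2 * bb ν δ k' ≤ (1 / 100000) * (δ k' * ν k' ^ 8 + δ k' * ν k ^ 8) := by
    have c3 : 0 < δ k' * ν k' ^ 8 := by positivity
    have c4 : 0 < δ k' * ν k ^ 8 := by positivity
    rcases lt_or_gt_of_ne hne with hlt | hlt
    · -- k' < k
      have d1 : ν k ≤ (1 / 1000000) * ν k' ^ 2 := h.νlt' hlt (by norm_num)
      have d2 : ν k ^ 2 ≤ ν k := by
        have := h.pow_mono k (show 1 ≤ 2 by norm_num)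
        rwa [pow_one] at this
      calc (22 / 10) * ν k ^ 2 * bb ν δ k' ≤ (22 / 10) * ((1 / 1000000) * ν k' ^ 2) * bb ν δ k' := by
            have := h.bbpos k'
            gcongr
            exact d2.trans d1
        _ = (22 / 10) * (1 / 1000000) * (δ k' * ν k' ^ 8) := by unfold bb; ring
        _ ≤ _ := by linarith
    · -- k < k'
      have d1 : ν k' ≤ (1 / 1000000) * ν k ^ 6 := h.νlt' hlt (by norm_num)
      have d2 : ν k' ^ 6 ≤ ν k' := by
        have := h.pow_mono k' (show 1 ≤ 6 by norm_num)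
        rwa [pow_one] at this
      calc (22 / 10) * ν k ^ 2 * bb ν δ k' = (22 / 10) * ν k ^ 2 * (δ k' * ν k' ^ 6) := rfl
        _ ≤ (22 / 10) * ν k ^ 2 * (δ k' * ((1 / 1000000) * ν k ^ 6)) := by
            gcongr
            exact d2.trans d1
        _ = (22 / 10) * (1 / 1000000) * (δ k' * ν k ^ 8) := by ring
        _ ≤ _ := by linarith
  have s4 : (1 / 1000000) * ν k' ^ 10 * δ k' / 1000000 ≤ (1 / 1000000) * (δ k' * ν k' ^ 8) := by
    have c1 : ν k' ^ 10 ≤ ν k' ^ 8 := h.pow_mono k' (by norm_num)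
    have c3 : 0 < δ k' * ν k' ^ 8 := by positivity
    calc (1 / 1000000) * ν k' ^ 10 * δ k' / 1000000 ≤ (1 / 1000000) * ν k' ^ 8 * δ k' / 1000000 := by
          gcongr
      _ ≤ _ := by linarith
  have s5 : aa ν δ l' / 500 ≤ (1 / 1000000) * (δ k' * ν k' ^ 8) := by
    have c1 := h.aale l'
    have c2 := h.δlt' hkl' (show 8 ≤ 10 by norm_num)
    have c3 : 0 < δ k' * ν k' ^ 8 := by positivity
    linarith
  have s6 : 0 ≤ δ k' * ν l ^ 4 := by positivity
  have s7 : 0 ≤ δ l' * (ν k' ^ 8 + 2 * ν l' ^ 4) := by positivity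
  have c3 : 0 < δ k' * ν k' ^ 8 := by positivity
  have c4 : 0 < δ k' * ν k ^ 8 := by positivity
  linarith

end Rapid

end Pool.Agent.Lib.MP_0e6637_co
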