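import Mathlib

set_option autoImplicit false

/-! Rapidly decreasing sequences. -/

namespace Pool.Agent.Lib.MP_0e6637_co

/-- The growth conditions used in the construction. -/
structure Rapid (ν δ : ℕ → ℝ) : Prop where
  νpos : ∀ n, 0 < ν n
  νle : ∀ n, ν n ≤ 1 / 1000
  νlt : ∀ k l, k < l → ν l ≤ (1 / 1000000) * ν k ^ 10
  δpos : ∀ n, 0 < δ n
  δlt : ∀ k l, k < l → δ l ≤ ν l ^ 10 * δ k

/-- The sequence `ν n = 1000 ^ (-12 ^ n)`. -/
noncomputable def nu (n : ℕ) : ℝ := (1 / 1000) ^ (12 ^ n)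

/-- The sequence `δ n = (ν n) ^ 12`. -/
noncomputable def de (n : ℕ) : ℝ := nu n ^ 12

lemma nu_pos (n : ℕ) : 0 < nu n := by unfold nu; positivity

lemma nu_le (n : ℕ) : nu n ≤ 1 / 1000 := by
  unfold nu
  calc (1 / 1000 : ℝ) ^ (12 ^ n) ≤ (1 / 1000) ^ 1 :=
        pow_le_pow_of_le_one (by norm_num) (by norm_num) (Nat.one_le_pow _ _ (by norm_num))
    _ = 1 / 1000 := by norm_num

lemma nu_lt (k l : ℕ) (h : k < l) : nu l ≤ nu k ^ 12 := by
  unfold nu
  rw [← pow_mul]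
  apply pow_le_pow_of_le_one (by norm_num) (by norm_num)
  rw [← pow_succ]
  exact Nat.pow_le_pow_right (by norm_num) h

lemma rapid_nu_de : Rapid nu de := by
  refine ⟨nu_pos, nu_le, ?_, ?_, ?_⟩
  · intro k l h
    have h1 := nu_lt k l h
    have h2 := nu_le k
    have h3 := nu_pos k
    have h4 : nu k ^ 2 ≤ (1 / 1000) ^ 2 := pow_le_pow_left₀ h3.le h2 2
    calc nu l ≤ nu k ^ 12 := h1
      _ = nu k ^ 2 * nu k ^ 10 := by ring
      _ ≤ (1 / 1000) ^ 2 * nu k ^ 10 := by gcongr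
      _ = (1 / 1000000) * nu k ^ 10 := by norm_num
  · intro n
    unfold de
    exact pow_pos (nu_pos n) 12
  · intro k l h
    unfold de
    have h1 := nu_lt k l h
    have h3 := nu_pos l
    have h5 := nu_le l
    calc nu l ^ 12 = nu l ^ 10 * (nu l * nu l) := by ring
      _ ≤ nu l ^ 10 * (1 * nu k ^ 12) := by
          gcongr
          linarith
      _ = nu l ^ 10 * nu k ^ 12 := by ring

namespace Rapid

variable {ν δ : ℕ → ℝ} (h : Rapid ν δ)
include h

lemma νle1 (n : ℕ) : ν n ≤ 1 := (h.νle n).trans (by norm_num)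

lemma pow_mono (n : ℕ) {a b : ℕ} (hab : a ≤ b) : ν n ^ b ≤ ν n ^ a :=
  pow_le_pow_of_le_one (h.νpos n).le (h.νle1 n) hab

/-- `ν l ≤ 10^{-6} ν k ^ a` for `k < l` and `a ≤ 10`. -/
lemma νlt' {k l a : ℕ} (hkl : k < l) (ha : a ≤ 10) : ν l ≤ (1 / 1000000) * ν k ^ a :=
  (h.νlt k l hkl).trans (by gcongr 1; exact h.pow_mono k ha)

lemma anti {k l : ℕ} (hkl : k ≤ l) : ν l ≤ ν k := by
  rcases hkl.eq_or_lt with rfl | hlt
  · exact le_rfl
  · have := h.νlt' hlt (show 1 ≤ 10 by norm_num)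
    have h2 := h.νpos k
    rw [pow_one] at this
    linarith

lemma half {k l : ℕ} (hkl : k < l) : ν l ≤ ν k / 2 := by
  have := h.νlt' hkl (show 1 ≤ 10 by norm_num)
  have h2 := h.νpos k
  rw [pow_one] at this
  linarith

/-- Separation of distinct values with indices at most `k`. -/
lemma sep {i j k : ℕ} (hi : i ≤ k) (hj : j ≤ k) (hij : i ≠ j) : ν k ≤ |ν i - ν j| := by
  rcases lt_or_gt_of_ne hij with h1 | h1
  · have := h.half h1
    have h2 := h.anti hj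
    have h3 := h.νpos i
    rw [abs_of_nonneg (by linarith)]
    have h4 := h.νpos j
    linarith
  · have := h.half h1
    have h2 := h.anti hi
    have h3 := h.νpos j
    rw [abs_of_nonpos (by have := h.νpos i; linarith)]
    linarith

lemma abs_sub_le (i j : ℕ) : |ν i - ν j| ≤ 1 / 1000 := by
  have h1 := h.νpos i
  have h2 := h.νpos j
  have h3 := h.νle i
  have h4 := h.νle j
  rw [abs_le]
  constructor <;> linarith

/-- `δ l ≤ 10^{-6} ν k ^ a δ k` for `k < l` and `a ≤ 10`. -/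
lemma δlt' {k l a : ℕ} (hkl : k < l) (ha : a ≤ 10) :
    δ l ≤ (1 / 1000000) * ν k ^ a * δ k := by
  have h1 := h.δlt k l hkl
  have h2 := h.νlt' hkl ha
  have h3 : ν l ^ 10 ≤ ν l := by
    have := h.pow_mono l (show 1 ≤ 10 by norm_num)
    rwa [pow_one] at this
  have h4 := h.δpos k
  calc δ l ≤ ν l ^ 10 * δ k := h1
    _ ≤ ν l * δ k := by gcongr
    _ ≤ _ := by gcongr

/-- `δ l ≤ 10^{-3 (10-a)} ν l ^ a δ k`. -/
lemma δlt_self {k l : ℕ} (hkl : k < l) : δ l ≤ (1 / 1000000) * ν l ^ 8 * δ k := by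
  have h1 := h.δlt k l hkl
  have h2 := h.νle l
  have h3 := h.νpos l
  have h4 := h.δpos k
  have h5 : ν l ^ 2 ≤ 1 / 1000000 := by
    calc ν l ^ 2 ≤ (1 / 1000) ^ 2 := pow_le_pow_left₀ h3.le h2 2
      _ = _ := by norm_num
  calc δ l ≤ ν l ^ 10 * δ k := h1
    _ = ν l ^ 2 * ν l ^ 8 * δ k := by ring
    _ ≤ _ := by gcongr

lemma δlt1 {k l : ℕ} (hkl : k < l) : δ l ≤ (1 / 1000000) * δ k := by
  have := h.δlt' hkl (show 0 ≤ 10 by norm_num)
  simpa using this

end Rapid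

end Pool.Agent.Lib.MP_0e6637_co
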