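import Mathlib

set_option autoImplicit false

/-! The 35-dimensional space with its cyclic symmetry. -/

namespace Pool.Agent.Lib.MP_0e6637_co

/-- The underlying space `ℝ^5 ⊗ ℝ^7`. -/
abbrev V : Type := EuclideanSpace ℝ (ZMod 5 × Fin 7)

/-- `uu r w` is `w` in block `r` and `-w` in block `r + 2`. -/
noncomputable def uu (r : ZMod 5) : (Fin 7 → ℝ) →ₗ[ℝ] V where
  toFun w := WithLp.toLp 2 (fun p => (if p.1 = r then w p.2 else 0) - (if p.1 = r + 2 then w p.2 else 0))
  map_add' w w' := by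
    ext p
    simp only [Pi.add_apply, PiLp.add_apply]
    split_ifs <;> ring
  map_smul' a w := by
    ext p
    simp only [Pi.smul_apply, PiLp.smul_apply, smul_eq_mul, RingHom.id_apply]
    split_ifs <;> ring

lemma uu_apply (r : ZMod 5) (w : Fin 7 → ℝ) (s : ZMod 5) (n : Fin 7) :
    (uu r w).ofLp (s, n) = (if s = r then w n else 0) - (if s = r + 2 then w n else 0) := rfl

/-- The rotation of the blocks. -/
noncomputable def Rot (s : ZMod 5) : V →ₗ[ℝ] V where
  toFun x := WithLp.toLp 2 (fun p => x.ofLp (p.1 - s, p.2))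
  map_add' x y := by ext p; simp
  map_smul' a x := by ext p; simp

lemma Rot_apply (s : ZMod 5) (x : V) (t : ZMod 5) (n : Fin 7) :
    (Rot s x).ofLp (t, n) = x.ofLp (t - s, n) := rfl

lemma norm_Rot (s : ZMod 5) (x : V) : ‖Rot s x‖ = ‖x‖ := by
  rw [EuclideanSpace.norm_eq, EuclideanSpace.norm_eq]
  congr 1
  exact Fintype.sum_equiv ((Equiv.subRight s).prodCongr (Equiv.refl (Fin 7))) _ _
    (fun p => rfl)

lemma Rot_Rot (s t : ZMod 5) (x : V) : Rot s (Rot t x) = Rot (s + t) x := by
  ext ⟨r, n⟩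
  rw [Rot_apply, Rot_apply, Rot_apply, sub_sub]

lemma Rot_zero (x : V) : Rot 0 x = x := by
  ext ⟨r, n⟩
  rw [Rot_apply, sub_zero]

lemma Rot_uu (s r : ZMod 5) (w : Fin 7 → ℝ) : Rot s (uu r w) = uu (r + s) w := by
  ext ⟨t, n⟩
  rw [Rot_apply, uu_apply, uu_apply]
  have h1 : t - s = r ↔ t = r + s := sub_eq_iff_eq_add
  have h2 : t - s = r + 2 ↔ t = r + s + 2 := by
    rw [sub_eq_iff_eq_add]
    constructor <;> intro h <;> rw [h] <;> ring
  simp only [h1, h2]

lemma sum_uu (w : Fin 7 → ℝ) : uu 0 w + uu 1 w + uu 2 w + uu 3 w + uu 4 w = 0 := by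
  ext ⟨t, n⟩
  simp only [PiLp.add_apply, uu_apply, PiLp.zero_apply]
  have key : ∀ t : ZMod 5, t = 0 ∨ t = 1 ∨ t = 2 ∨ t = 3 ∨ t = 4 := by decide
  rcases key t with rfl | rfl | rfl | rfl | rfl
  · rw [if_pos (by decide), if_neg (by decide), if_neg (by decide), if_neg (by decide),
      if_neg (by decide), if_neg (by decide), if_neg (by decide), if_pos (by decide),
      if_neg (by decide), if_neg (by decide)]
    ring
  · rw [if_neg (by decide), if_neg (by decide), if_pos (by decide), if_neg (by decide),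
      if_neg (by decide), if_neg (by decide), if_neg (by decide), if_neg (by decide),
      if_neg (by decide), if_pos (by decide)]
    ring
  · rw [if_neg (by decide), if_pos (by decide), if_neg (by decide), if_neg (by decide),
      if_pos (by decide), if_neg (by decide), if_neg (by decide), if_neg (by decide),
      if_neg (by decide), if_neg (by decide)]
    ring
  · rw [if_neg (by decide), if_neg (by decide), if_neg (by decide), if_pos (by decide),
      if_neg (by decide), if_neg (by decide), if_pos (by decide), if_neg (by decide),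
      if_neg (by decide), if_neg (by decide)]
    ring
  · rw [if_neg (by decide), if_neg (by decide), if_neg (by decide), if_neg (by decide),
      if_neg (by decide), if_pos (by decide), if_neg (by decide), if_neg (by decide),
      if_pos (by decide), if_neg (by decide)]
    ring

/-- The sum of absolute values. -/
def nrm1 (w : Fin 7 → ℝ) : ℝ := ∑ n, |w n|

lemma norm_uu_le (r : ZMod 5) (w : Fin 7 → ℝ) : ‖uu r w‖ ≤ 2 * nrm1 w := by
  rw [EuclideanSpace.norm_eq]
  apply Real.sqrt_le_iff.2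
  constructor
  · unfold nrm1
    have : 0 ≤ ∑ n, |w n| := Finset.sum_nonneg fun i _ => abs_nonneg _
    linarith
  · have h1 : ∑ i, ‖(uu r w).ofLp i‖ ^ 2 ≤ (∑ i, ‖(uu r w).ofLp i‖) ^ 2 :=
      Finset.sum_sq_le_sq_sum_of_nonneg fun i _ => norm_nonneg _
    have h2 : ∑ i, ‖(uu r w).ofLp i‖ ≤ 2 * nrm1 w := by
      rw [Fintype.sum_prod_type]
      have h3 : ∀ s : ZMod 5, ∑ n, ‖(uu r w).ofLp (s, n)‖ ≤
          (if s = r then nrm1 w else 0) + (if s = r + 2 then nrm1 w else 0) := by
        intro s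
        have h4 : ∀ n : Fin 7, ‖(uu r w).ofLp (s, n)‖ ≤
            (if s = r then |w n| else 0) + (if s = r + 2 then |w n| else 0) := by
          intro n
          rw [uu_apply, Real.norm_eq_abs]
          refine (abs_sub _ _).trans (le_of_eq ?_)
          split_ifs <;> simp
        refine (Finset.sum_le_sum fun n _ => h4 n).trans (le_of_eq ?_)
        rw [Finset.sum_add_distrib]
        unfold nrm1
        split_ifs <;> simp
      refine (Finset.sum_le_sum fun s _ => h3 s).trans (le_of_eq ?_)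
      rw [Finset.sum_add_distrib, Finset.sum_ite_eq', Finset.sum_ite_eq']
      simp
      ring
    have h0 : 0 ≤ ∑ i, ‖(uu r w).ofLp i‖ := Finset.sum_nonneg fun i _ => norm_nonneg _
    calc ∑ i, ‖(uu r w).ofLp i‖ ^ 2 ≤ (∑ i, ‖(uu r w).ofLp i‖) ^ 2 := h1
      _ ≤ (2 * nrm1 w) ^ 2 := pow_le_pow_left₀ h0 h2 2

/-- Dot product. -/
def dot (φ w : Fin 7 → ℝ) : ℝ := ∑ n, φ n * w n

/-- The functionals used in the construction. -/
noncomputable def psi (φ φ' : Fin 7 → ℝ) : V →ₗ[ℝ] ℝ where
  toFun x := (∑ n : Fin 7, φ n * ((x.ofLp (0, n) - x.ofLp (2, n)) / 2))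
    + ∑ n : Fin 7, φ' n * ((x.ofLp (1, n) - x.ofLp (3, n)) / 2)
  map_add' x y := by
    have h1 : ∀ (χ : Fin 7 → ℝ) (a b : ZMod 5),
        ∑ n : Fin 7, χ n * (((x + y).ofLp (a, n) - (x + y).ofLp (b, n)) / 2) =
        ∑ n : Fin 7, χ n * ((x.ofLp (a, n) - x.ofLp (b, n)) / 2) +
        ∑ n : Fin 7, χ n * ((y.ofLp (a, n) - y.ofLp (b, n)) / 2) := by
      intro χ a b
      rw [← Finset.sum_add_distrib]
      refine Finset.sum_congr rfl fun n _ => ?_
      simp only [PiLp.add_apply]
      ring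
    rw [h1, h1]
    ring
  map_smul' a x := by
    rw [RingHom.id_apply, smul_eq_mul, mul_add, Finset.mul_sum, Finset.mul_sum]
    congr 1 <;> refine Finset.sum_congr rfl fun n _ => ?_ <;>
      simp only [PiLp.smul_apply, smul_eq_mul] <;> ring

lemma psi_apply (φ φ' : Fin 7 → ℝ) (x : V) : psi φ φ' x =
    (∑ n : Fin 7, φ n * ((x.ofLp (0, n) - x.ofLp (2, n)) / 2))
    + ∑ n : Fin 7, φ' n * ((x.ofLp (1, n) - x.ofLp (3, n)) / 2) := rfl

lemma psi_uu0 (φ φ' w : Fin 7 → ℝ) : psi φ φ' (uu 0 w) = dot φ w := by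
  rw [psi_apply]
  simp only [uu_apply]
  have e1 : ((1 : ZMod 5) = 0) = False := by decide
  have e2 : ((3 : ZMod 5) = 0) = False := by decide
  have e3 : ((2 : ZMod 5) = 0) = False := by decide
  have e4 : ((0 : ZMod 5) = 0 + 2) = False := by decide
  have e5 : ((2 : ZMod 5) = 0 + 2) = True := by decide
  have e6 : ((1 : ZMod 5) = 0 + 2) = False := by decide
  have e7 : ((3 : ZMod 5) = 0 + 2) = False := by decide
  simp only [e1, e2, e3, e4, e5, e6, e7, if_true, if_false]
  unfold dot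
  simp

lemma psi_uu1 (φ φ' w : Fin 7 → ℝ) : psi φ φ' (uu 1 w) = dot φ' w := by
  rw [psi_apply]
  simp only [uu_apply]
  have e1 : ((0 : ZMod 5) = 1) = False := by decide
  have e2 : ((2 : ZMod 5) = 1) = False := by decide
  have e3 : ((3 : ZMod 5) = 1) = False := by decide
  have e4 : ((0 : ZMod 5) = 1 + 2) = False := by decide
  have e5 : ((2 : ZMod 5) = 1 + 2) = False := by decide
  have e6 : ((1 : ZMod 5) = 1 + 2) = False := by decide
  have e7 : ((3 : ZMod 5) = 1 + 2) = True := by decide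
  simp only [e1, e2, e3, e4, e5, e6, e7, if_true, if_false]
  unfold dot
  simp

lemma psi_uu2 (φ φ' w : Fin 7 → ℝ) : psi φ φ' (uu 2 w) = - dot φ w / 2 := by
  rw [psi_apply]
  simp only [uu_apply]
  have e1 : ((0 : ZMod 5) = 2) = False := by decide
  have e2 : ((1 : ZMod 5) = 2) = False := by decide
  have e3 : ((3 : ZMod 5) = 2) = False := by decide
  have e4 : ((0 : ZMod 5) = 2 + 2) = False := by decide
  have e5 : ((2 : ZMod 5) = 2 + 2) = False := by decide
  have e6 : ((1 : ZMod 5) = 2 + 2) = False := by decide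
  have e7 : ((3 : ZMod 5) = 2 + 2) = False := by decide
  simp only [e1, e2, e3, e4, e5, e6, e7, if_true, if_false]
  unfold dot
  rw [neg_div, Finset.sum_div, ← Finset.sum_neg_distrib]
  simp only [sub_self, zero_div, mul_zero, Finset.sum_const_zero, add_zero]
  refine Finset.sum_congr rfl fun n _ => ?_
  ring

lemma psi_uu3 (φ φ' w : Fin 7 → ℝ) : psi φ φ' (uu 3 w) = - dot φ w / 2 - dot φ' w / 2 := by
  rw [psi_apply]
  simp only [uu_apply]
  have e1 : ((0 : ZMod 5) = 3) = False := by decide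
  have e2 : ((1 : ZMod 5) = 3) = False := by decide
  have e3 : ((2 : ZMod 5) = 3) = False := by decide
  have e4 : ((0 : ZMod 5) = 3 + 2) = True := by decide
  have e5 : ((2 : ZMod 5) = 3 + 2) = False := by decide
  have e6 : ((1 : ZMod 5) = 3 + 2) = False := by decide
  have e7 : ((3 : ZMod 5) = 3 + 2) = False := by decide
  simp only [e1, e2, e3, e4, e5, e6, e7, if_true, if_false]
  unfold dot
  rw [neg_div, Finset.sum_div, Finset.sum_div]
  have e9 : ∀ a b : ℝ, -a - b = -a + -b := fun a b => sub_eq_add_neg _ _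
  rw [e9, ← Finset.sum_neg_distrib, ← Finset.sum_neg_distrib]
  congr 1 <;> refine Finset.sum_congr rfl fun n _ => ?_ <;> ring

lemma psi_uu4 (φ φ' w : Fin 7 → ℝ) : psi φ φ' (uu 4 w) = - dot φ' w / 2 := by
  rw [psi_apply]
  simp only [uu_apply]
  have e1 : ((0 : ZMod 5) = 4) = False := by decide
  have e2 : ((1 : ZMod 5) = 4) = False := by decide
  have e3 : ((3 : ZMod 5) = 4) = False := by decide
  have e8 : ((2 : ZMod 5) = 4) = False := by decide
  have e4 : ((0 : ZMod 5) = 4 + 2) = False := by decide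
  have e5 : ((2 : ZMod 5) = 4 + 2) = False := by decide
  have e6 : ((1 : ZMod 5) = 4 + 2) = True := by decide
  have e7 : ((3 : ZMod 5) = 4 + 2) = False := by decide
  simp only [e1, e2, e3, e4, e5, e6, e7, e8, if_true, if_false]
  unfold dot
  rw [neg_div, Finset.sum_div, ← Finset.sum_neg_distrib]
  simp only [sub_self, zero_div, mul_zero, Finset.sum_const_zero, zero_add]
  refine Finset.sum_congr rfl fun n _ => ?_
  ring

lemma abs_psi_le (φ φ' : Fin 7 → ℝ) (hφ : ∀ n, |φ n| ≤ 2) (hφ' : ∀ n, |φ' n| ≤ 2) (x : V) :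
    |psi φ φ' x| ≤ 28 * ‖x‖ := by
  have key : ∀ (χ : Fin 7 → ℝ) (hχ : ∀ n, |χ n| ≤ 2) (a b : ZMod 5),
      |∑ n, χ n * ((x.ofLp (a, n) - x.ofLp (b, n)) / 2)| ≤ 14 * ‖x‖ := by
    intro χ hχ a b
    refine (Finset.abs_sum_le_sum_abs _ _).trans ?_
    have h1 : ∀ n ∈ (Finset.univ : Finset (Fin 7)),
        |χ n * ((x.ofLp (a, n) - x.ofLp (b, n)) / 2)| ≤ 2 * ‖x‖ := by
      intro n _
      rw [abs_mul]
      have h2 : |(x.ofLp (a, n) - x.ofLp (b, n)) / 2| ≤ ‖x‖ := by
        have e1 := PiLp.norm_apply_le x (a, n)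
        have e2 := PiLp.norm_apply_le x (b, n)
        rw [Real.norm_eq_abs] at e1 e2
        rw [abs_div, abs_of_pos (show (0 : ℝ) < 2 by norm_num)]
        have e3 := abs_sub (x.ofLp (a, n)) (x.ofLp (b, n))
        linarith
      exact mul_le_mul (hχ n) h2 (abs_nonneg _) (by norm_num)
    refine (Finset.sum_le_sum h1).trans (le_of_eq ?_)
    simp
    ring
  rw [psi_apply]
  refine (abs_add_le _ _).trans ?_
  have := key φ hφ 0 2
  have := key φ' hφ' 1 3
  linarith

end Pool.Agent.Lib.MP_0e6637_co
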