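import Pool.Agent.Lib.MP_0e6637_co.Scalar3
import Pool.Agent.Lib.MP_0e6637_co.Space

set_option autoImplicit false

/-! The points of the construction and their norms. -/

namespace Pool.Agent.Lib.MP_0e6637_co

section defs

variable (ν δ : ℕ → ℝ)

/-- The basic vectors of `ℝ^7`. -/
noncomputable def ww (k i : ℕ) : Fin 7 → ℝ :=
  ![δ k, aa ν δ k, aa ν δ k * ν i, aa ν δ k * ν i ^ 2, bb ν δ k, bb ν δ k * ν i,
    bb ν δ k * ν i ^ 2]

/-- The points `p(k, n)`. -/
noncomputable def pt (k n : ℕ) : V :=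
  uu 0 (ww ν δ k (min k n)) + uu 1 (if k < n then ww ν δ n k else 0)

/-- First functional. -/
noncomputable def phi1 (k l n m : ℕ) : Fin 7 → ℝ :=
  ![alpha ν k l, -(ν l * (1 - ν (min l m) ^ 2)), -(2 * ν l * ν (min l m)), ν l,
    AA ν δ k l n m * (1 - ν (min k n) ^ 2), 2 * AA ν δ k l n m * ν (min k n), -AA ν δ k l n m]

/-- Second functional. -/
noncomputable def phi2 (k l n m : ℕ) : Fin 7 → ℝ :=
  ![0, -(2 * mm ν k n * ν l + 2 * mm ν l m * ν k), 2 * mm ν k n + 2 * mm ν l m, 0,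
    ν l + ν k, -2, 0]

/-- The first basis vector. -/
def e0 : Fin 7 → ℝ := ![1, 0, 0, 0, 0, 0, 0]

lemma dot_phi1_ww (k l n m y x : ℕ) : dot (phi1 ν δ k l n m) (ww ν δ y x) = F1 ν δ k l n m y x := by
  unfold dot phi1 ww F1 PP
  simp [Fin.sum_univ_succ]
  ring

lemma dot_phi2_ww (k l n m y x : ℕ) : dot (phi2 ν k l n m) (ww ν δ y x) = F2 ν δ k l n m y x := by
  unfold dot phi2 ww F2
  simp [Fin.sum_univ_succ]
  ring

end defs

lemma dot_zero (φ : Fin 7 → ℝ) : dot φ 0 = 0 := by unfold dot; simp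

lemma dot_sub (φ w w' : Fin 7 → ℝ) : dot φ (w - w') = dot φ w - dot φ w' := by
  unfold dot
  rw [← Finset.sum_sub_distrib]
  refine Finset.sum_congr rfl fun n _ => ?_
  rw [Pi.sub_apply]
  ring

lemma dot_phi2_ite (ν δ : ℕ → ℝ) (k l n m y x : ℕ) (P : Prop) [Decidable P] :
    dot (phi2 ν k l n m) (if P then ww ν δ y x else 0) = if P then F2 ν δ k l n m y x else 0 := by
  split_ifs
  · exact dot_phi2_ww ν δ k l n m y x
  · exact dot_zero _

lemma dot_phi1_ite (ν δ : ℕ → ℝ) (k l n m y x : ℕ) (P : Prop) [Decidable P] :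
    dot (phi1 ν δ k l n m) (if P then ww ν δ y x else 0) =
      if P then F1 ν δ k l n m y x else 0 := by
  split_ifs
  · exact dot_phi1_ww ν δ k l n m y x
  · exact dot_zero _

lemma psi_pt (ν δ : ℕ → ℝ) (k l n m y x : ℕ) :
    psi (phi1 ν δ k l n m) (phi2 ν k l n m) (pt ν δ y x) = Psi ν δ k l n m y x := by
  unfold pt Psi
  rw [map_add, psi_uu0, psi_uu1, dot_phi1_ww, dot_phi2_ite]

lemma nrm1_sub_comm (w w' : Fin 7 → ℝ) : nrm1 (w - w') = nrm1 (w' - w) := by
  unfold nrm1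
  refine Finset.sum_congr rfl fun n _ => ?_
  rw [Pi.sub_apply, Pi.sub_apply, abs_sub_comm]

lemma nrm1_zero : nrm1 0 = 0 := by unfold nrm1; simp

namespace Rapid

variable {ν δ : ℕ → ℝ} (h : Rapid ν δ)
include h

lemma nrm1_ww (k i : ℕ) : nrm1 (ww ν δ k i) ≤ (101 / 100) * δ k := by
  have h1 := h.aapos k
  have h2 := h.bbpos k
  have h3 := h.aale k
  have h4 := h.bble k
  have h5 := h.νpos i
  have h6 := h.νle i
  have h7 := h.δpos k
  have h8 : ν i ^ 2 ≤ 1 := by nlinarith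
  unfold nrm1 ww
  simp only [Fin.sum_univ_succ, Matrix.cons_val_zero, Matrix.cons_val_succ,
    Finset.univ_eq_empty, Finset.sum_empty, Matrix.cons_val_fin_one]
  rw [abs_of_pos h7, abs_of_pos h1, abs_of_pos h2, abs_of_pos (by positivity),
    abs_of_pos (by positivity), abs_of_pos (by positivity), abs_of_pos (by positivity)]
  have e1 : aa ν δ k * ν i ≤ aa ν δ k * 1 := by gcongr; linarith
  have e2 : aa ν δ k * ν i ^ 2 ≤ aa ν δ k * 1 := by gcongr
  have e3 : bb ν δ k * ν i ≤ bb ν δ k * 1 := by gcongr; linarith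
  have e4 : bb ν δ k * ν i ^ 2 ≤ bb ν δ k * 1 := by gcongr
  linarith

lemma nrm1_ww_sub (k i j : ℕ) :
    nrm1 (ww ν δ k i - ww ν δ k j) ≤ (101 / 100) * (aa ν δ k * |ν i - ν j|) := by
  have h1 := h.aapos k
  have h2 := h.bbpos k
  have h4 := h.bble k
  have hi := h.νpos i
  have hi' := h.νle i
  have hj := h.νpos j
  have hj' := h.νle j
  have hd := abs_nonneg (ν i - ν j)
  unfold nrm1 ww
  simp only [Fin.sum_univ_succ, Matrix.cons_val_zero, Matrix.cons_val_succ,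
    Finset.univ_eq_empty, Finset.sum_empty, Matrix.cons_val_fin_one, Pi.sub_apply, sub_self,
    abs_zero]
  rw [← mul_sub, ← mul_sub, ← mul_sub, ← mul_sub, abs_mul, abs_mul, abs_mul, abs_mul,
    abs_of_pos h1, abs_of_pos h2]
  have e : |ν i ^ 2 - ν j ^ 2| ≤ (1 / 500) * |ν i - ν j| := by
    have : ν i ^ 2 - ν j ^ 2 = (ν i + ν j) * (ν i - ν j) := by ring
    rw [this, abs_mul, abs_of_pos (by positivity)]
    gcongr
    linarith
  have e1 : aa ν δ k * |ν i ^ 2 - ν j ^ 2| ≤ aa ν δ k * ((1 / 500) * |ν i - ν j|) := by gcongr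
  have e2 : bb ν δ k * |ν i ^ 2 - ν j ^ 2| ≤ (aa ν δ k / 1000000) * ((1 / 500) * |ν i - ν j|) := by
    gcongr
  have e3 : bb ν δ k * |ν i - ν j| ≤ (aa ν δ k / 1000000) * |ν i - ν j| := by gcongr
  have : 0 ≤ aa ν δ k * |ν i - ν j| := by positivity
  linarith

lemma nrm1_ww_e0 (k i : ℕ) : nrm1 (ww ν δ k i - δ k • e0) ≤ (101 / 100) * aa ν δ k := by
  have h1 := h.aapos k
  have h2 := h.bbpos k
  have h4 := h.bble k
  have h5 := h.νpos i
  have h6 := h.νle i
  have h8 : ν i ^ 2 ≤ 1 / 1000 := by nlinarith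
  unfold nrm1 ww e0
  simp only [Fin.sum_univ_succ, Matrix.cons_val_zero, Matrix.cons_val_succ,
    Finset.univ_eq_empty, Finset.sum_empty, Matrix.cons_val_fin_one, Pi.sub_apply, Pi.smul_apply,
    smul_eq_mul, mul_one, mul_zero, sub_zero, sub_self, abs_zero]
  rw [abs_of_pos h1, abs_of_pos h2, abs_of_pos (by positivity),
    abs_of_pos (by positivity), abs_of_pos (by positivity), abs_of_pos (by positivity)]
  have e1 : aa ν δ k * ν i ≤ aa ν δ k * (1 / 1000) := by gcongr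
  have e2 : aa ν δ k * ν i ^ 2 ≤ aa ν δ k * (1 / 1000) := by gcongr
  have e3 : bb ν δ k * ν i ≤ bb ν δ k * 1 := by gcongr; linarith
  have e4 : bb ν δ k * ν i ^ 2 ≤ bb ν δ k * 1 := by gcongr; linarith
  linarith

/-- Norm of the tail part. -/
lemma norm_tail (k n : ℕ) (r : ZMod 5) :
    ‖uu r (if k < n then ww ν δ n k else 0)‖ ≤ (202 / 100) * (if k < n then δ n else 0) := by
  split_ifs
  · refine (norm_uu_le r _).trans ?_
    have := h.nrm1_ww n k
    linarith
  · simp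

lemma norm_pt (k n : ℕ) : ‖pt ν δ k n‖ ≤ (203 / 100) * δ k := by
  have h1 := norm_uu_le 0 (ww ν δ k (min k n))
  have h2 := h.nrm1_ww k (min k n)
  have h3 := h.norm_tail k n 1
  have h4 := (h.tail_len (s := k) (y := n)).2
  have h5 := h.νpos k
  have h6 := h.δpos k
  have h7 : ν k ^ 10 ≤ 1 := by
    have := h.pow_mono k (show 0 ≤ 10 by norm_num)
    simpa using this
  have h8 : (1 / 1000000) * ν k ^ 10 * δ k ≤ (1 / 1000000) * 1 * δ k := by gcongr
  unfold pt
  refine (norm_add_le _ _).trans ?_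
  linarith

lemma norm_pt_sub_e0 (k n : ℕ) : ‖pt ν δ k n - uu 0 (δ k • e0)‖ ≤ (203 / 100) * aa ν δ k := by
  have h1 := norm_uu_le 0 (ww ν δ k (min k n) - δ k • e0)
  have h2 := h.nrm1_ww_e0 k (min k n)
  have h3 := h.norm_tail k n 1
  have h4 := (h.tail_len (s := k) (y := n)).2
  have h5 := h.νpos k
  have h6 := h.δpos k
  have h8 : (1 / 1000000) * ν k ^ 10 * δ k ≤ (1 / 1000000) * aa ν δ k := by
    have := h.pow_mono k (show 4 ≤ 10 by norm_num)
    unfold aa
    calc (1 / 1000000) * ν k ^ 10 * δ k ≤ (1 / 1000000) * ν k ^ 4 * δ k := by gcongr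
      _ = _ := by ring
  have h9 := h.aapos k
  have e : pt ν δ k n - uu 0 (δ k • e0) = uu 0 (ww ν δ k (min k n) - δ k • e0) +
      uu 1 (if k < n then ww ν δ n k else 0) := by
    unfold pt
    rw [map_sub]
    abel
  rw [e]
  refine (norm_add_le _ _).trans ?_
  linarith

/-- Norm of the difference of two points of the same level. -/
lemma norm_pt_sub (k n n' : ℕ) :
    ‖pt ν δ k n - pt ν δ k n'‖ ≤ 3 * (aa ν δ k * |ν (min k n) - ν (min k n')| +
      if n = n' then 0 else ((if k < n then δ n else 0) + (if k < n' then δ n' else 0))) := by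
  by_cases hnn : n = n'
  · subst hnn
    simp
  rw [if_neg hnn]
  have h1 := norm_uu_le 0 (ww ν δ k (min k n) - ww ν δ k (min k n'))
  have h2 := h.nrm1_ww_sub k (min k n) (min k n')
  have h3 := h.norm_tail k n 1
  have h3' := h.norm_tail k n' 1
  have h4 := (h.tail_len (s := k) (y := n)).1
  have h4' := (h.tail_len (s := k) (y := n')).1
  have e : pt ν δ k n - pt ν δ k n' = uu 0 (ww ν δ k (min k n) - ww ν δ k (min k n')) +
      uu 1 (if k < n then ww ν δ n k else 0) - uu 1 (if k < n' then ww ν δ n' k else 0) := by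
    unfold pt
    rw [map_sub]
    abel
  have h9 : 0 ≤ aa ν δ k * |ν (min k n) - ν (min k n')| :=
    mul_nonneg (h.aapos k).le (abs_nonneg _)
  rw [e]
  refine (norm_sub_le _ _).trans ?_
  have h10 := norm_add_le (uu 0 (ww ν δ k (min k n) - ww ν δ k (min k n')))
    (uu 1 (if k < n then ww ν δ n k else 0))
  linarith

/-- The difference vectors. -/
lemma norm_c {k l : ℕ} (hkl : k < l) (n m : ℕ) :
    ‖pt ν δ k n - pt ν δ l m‖ ≤ 3 * rho ν δ k l := by
  have h1 := h.norm_pt k n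
  have h2 := h.norm_pt l m
  have h3 := h.δlt1 hkl
  have h4 := (h.rho_bounds hkl).1
  have h5 := h.δpos k
  refine (norm_sub_le _ _).trans ?_
  linarith

lemma norm_c_e0 {k l : ℕ} (hkl : k < l) (n m : ℕ) :
    ‖pt ν δ k n - pt ν δ l m - rho ν δ k l • uu 0 e0‖ ≤ 3 * aa ν δ k := by
  have h1 := h.norm_pt_sub_e0 k n
  have h2 := h.norm_pt_sub_e0 l m
  have h3 := h.δlt1 hkl
  have h4 := h.δpos k
  have h4' := h.δpos l
  have h5 := h.νpos k
  have h5' := h.νpos l
  have h6 := h.aale l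
  have h7 : δ l ≤ (1 / 1000000) * aa ν δ k := by
    have := h.δlt' hkl (show 4 ≤ 10 by norm_num)
    unfold aa
    linarith
  have h8 : δ k * ν k ^ 8 ≤ (1 / 100) * aa ν δ k := by
    unfold aa
    have : ν k ^ 4 ≤ (1 / 1000) ^ 4 := pow_le_pow_left₀ h5.le (h.νle k) 4
    calc δ k * ν k ^ 8 = δ k * ν k ^ 4 * ν k ^ 4 := by ring
      _ ≤ δ k * ν k ^ 4 * (1 / 1000) ^ 4 := by gcongr
      _ ≤ _ := by
        have : 0 < δ k * ν k ^ 4 := by positivity
        linarith
  have h9 := h.aapos k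
  have e : pt ν δ k n - pt ν δ l m - rho ν δ k l • uu 0 e0 =
      (pt ν δ k n - uu 0 (δ k • e0)) - (pt ν δ l m - uu 0 (δ l • e0))
      - (rho ν δ k l - δ k + δ l) • uu 0 e0 := by
    rw [map_smul, map_smul, add_smul, sub_smul]
    abel
  have h10 : ‖(rho ν δ k l - δ k + δ l) • uu 0 e0‖ ≤ (1 / 10) * aa ν δ k := by
    rw [norm_smul, Real.norm_eq_abs]
    have e1 : ‖uu 0 e0‖ ≤ 2 := by
      refine (norm_uu_le 0 e0).trans ?_
      unfold nrm1 e0
      simp [Fin.sum_univ_succ]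
    have e2 : rho ν δ k l - δ k + δ l = δ k * ν k ^ 8 + δ l * (ν k ^ 8 + 2 * ν l ^ 4) := by
      unfold rho; ring
    have e3 : ν k ^ 8 ≤ 1 := by
      have := h.pow_mono k (show 0 ≤ 8 by norm_num)
      simpa using this
    have e4 : ν l ^ 4 ≤ 1 := by
      have := h.pow_mono l (show 0 ≤ 4 by norm_num)
      simpa using this
    rw [e2, abs_of_pos (by positivity)]
    have e5 : δ l * (ν k ^ 8 + 2 * ν l ^ 4) ≤ δ l * 3 := by gcongr; linarith
    have e6 : δ k * ν k ^ 8 + δ l * (ν k ^ 8 + 2 * ν l ^ 4) ≤ (1 / 20) * aa ν δ k := by linarith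
    calc (δ k * ν k ^ 8 + δ l * (ν k ^ 8 + 2 * ν l ^ 4)) * ‖uu 0 e0‖
        ≤ ((1 / 20) * aa ν δ k) * 2 := by gcongr
      _ = _ := by ring
  rw [e]
  refine (norm_sub_le _ _).trans ?_
  have h11 := norm_sub_le (pt ν δ k n - uu 0 (δ k • e0)) (pt ν δ l m - uu 0 (δ l • e0))
  have h12 : aa ν δ l ≤ δ l := by linarith
  linarith

end Rapid

end Pool.Agent.Lib.MP_0e6637_co
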